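import Pool.Agent.MP_cb5d7d_al.PingPong

/-! The cusp subgroup is convex; elements commuting with the triangle group; twisted elements. -/

namespace Pool.Agent.MP_cb5d7d_al

variable {H : Type*} [Group H] {Ω : Type*} [LinearOrder Ω]

namespace Tri
variable {T : Tri H}

lemma red_zi : T.Red 0 (-2) 3 T.z⁻¹ := (Red.base (T := T) (-1)).cast (by simp) (by simp)
lemma red_zizi : T.Red 0 (-3) 3 (T.z⁻¹ * T.z⁻¹) :=
  (Red.base (T := T) (-2)).cast (by simp) (by group)
lemma red_x2 : T.Red 1 (-2) 0 (T.x * (T.z⁻¹ * T.z⁻¹)) := red_zizi.up 0 (by omega)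
lemma red_wx2 : T.Red 2 (-2) 2 (T.w * (T.x * (T.z⁻¹ * T.z⁻¹))) :=
  red_x2.down 2 (by omega) (by omega)
lemma red_ywx2 : T.Red 3 (-1) 1 (T.y * (T.w * (T.x * (T.z⁻¹ * T.z⁻¹)))) :=
  red_wx2.up 1 (by omega)
lemma red_xywx2 : T.Red 4 0 0 (T.x * (T.y * (T.w * (T.x * (T.z⁻¹ * T.z⁻¹))))) :=
  red_ywx2.up 0 (by omega)
lemma red_y1 : T.Red 1 (-1) 1 (T.y * T.z⁻¹) := red_zi.up 1 (by omega)
lemma red_wy1 : T.Red 2 (-1) 2 (T.w * (T.y * T.z⁻¹)) := red_y1.down 2 (by omega) (by omega)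
lemma red_x1 : T.Red 1 (-1) 0 (T.x * T.z⁻¹) := red_zi.up 0 (by omega)

lemma ex_eq : T.e * T.x = T.x * (T.y * (T.w * (T.x * (T.z⁻¹ * T.z⁻¹)))) := by
  have := T.e_mul (T.x * 1)
  rw [zix, zix] at this
  simpa using this

lemma zix' : T.z⁻¹ * T.x = T.x * T.z⁻¹ := T.cx.inv_right.eq.symm

lemma eixi_eq : T.e⁻¹ * T.x⁻¹ = T.w * (T.y * T.z⁻¹) := by
  rw [einv_mul, xinv, zix', zix, xx]; simp

lemma ce : Commute T.z T.e := T.cA T.e_mem

lemma exi_eq (n : ℤ) : T.e ^ n * T.x⁻¹ = T.z⁻¹ * (T.e ^ n * T.x) := by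
  rw [xinv, ← mul_assoc, ← mul_assoc, (ce.zpow_right n).inv_left.eq]

/-- `g` lies between the two families `eⁿ x⁻¹` and `eⁿ x` -/
def J (T : Tri H) (f : H → Ω) (g : H) : Prop :=
  ∀ n : ℤ, f (T.e ^ n * T.x⁻¹) < f g ∧ f g < f (T.e ^ n * T.x)

namespace Good
variable {f : H → Ω} (G : T.Good f)
include G

lemma x_pos : f 1 < f T.x := G.v_lt (s := 0) (by omega)

lemma x_lt_z : f T.x < f T.z := (G.v_lt (s := 1) (by omega)).trans_le (G.v_le (s' := 4) (by omega) le_rfl)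

lemma K3 : f (T.y * (T.w * (T.x * (T.z⁻¹ * T.z⁻¹)))) < f (T.w * (T.y * T.z⁻¹)) :=
  G.idx_lt red_ywx2 red_wy1 (by omega)

lemma K1' : f (T.e * T.x⁻¹) < f T.x⁻¹ := by
  have h1 : f T.x⁻¹ < f (T.e⁻¹ * T.x⁻¹) := by
    rw [eixi_eq]
    have := G.idx_lt red_x1 red_wy1 (by omega)
    rwa [T.cx.inv_right.eq, ← xinv] at this
  simpa using G.li.lt T.e h1

lemma K1 : f (T.e * T.x) < f T.x := by
  have h1 := G.li.lt T.z G.K1'
  have h2 := exi_eq (T := T) 1
  rw [zpow_one] at h2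
  rw [h2, xinv] at h1
  simpa using h1

lemma ex_anti : StrictAnti fun n : ℤ => f (T.e ^ n * T.x) := G.li.zpow_strictAnti G.K1
lemma exi_anti : StrictAnti fun n : ℤ => f (T.e ^ n * T.x⁻¹) := G.li.zpow_strictAnti G.K1'
lemma e_mono : StrictMono fun n : ℤ => f (T.e ^ n) := G.li.zpow_strictMono' G.he

lemma J_one : T.J f 1 := by
  intro n
  constructor
  · rcases le_total n 0 with h | h
    · have h1 := G.li.lt (T.e ^ n) (G.li.inv_neg G.x_pos)
      have h2 := G.e_mono.monotone h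
      simp only [mul_one, zpow_zero] at h1 h2
      exact h1.trans_le h2
    · have h2 := G.exi_anti.antitone h
      simp only [zpow_zero, one_mul] at h2
      exact h2.trans_lt (G.li.inv_neg G.x_pos)
  · rcases le_total n 0 with h | h
    · have h2 := G.ex_anti.antitone h
      simp only [zpow_zero, one_mul] at h2
      exact G.x_pos.trans_le h2
    · have h1 := G.li.lt (T.e ^ n) G.x_pos
      have h2 := G.e_mono.monotone h
      simp only [mul_one, zpow_zero] at h1 h2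
      exact h2.trans_lt h1

lemma J_emul {g : H} (hg : T.J f g) (m : ℤ) : T.J f (T.e ^ m * g) := by
  intro n
  have h1 := G.li.lt (T.e ^ m) (hg (n - m)).1
  have h2 := G.li.lt (T.e ^ m) (hg (n - m)).2
  rw [← mul_assoc, ← zpow_add, add_sub_cancel] at h1 h2
  exact ⟨h1, h2⟩

lemma J_e (m : ℤ) : T.J f (T.e ^ m) := by simpa using G.J_emul G.J_one m

lemma cof_aux (n : ℕ) : ∀ {k s h}, T.Red n k s h → T.J f h → ∃ m : ℤ, h = T.e ^ m := by
  induction n using Nat.strong_induction_on with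
  | _ n ih =>
  intro k s h r hJ
  have hs := r.le3
  have u1 := (hJ 1).2
  have l1 := (hJ (-1)).1
  rw [zpow_one, ex_eq] at u1
  rw [zpow_neg_one, eixi_eq] at l1
  have i1 := G.idx_le r red_xywx2 u1.le
  have i2 := G.idx_le red_wy1 r l1.le
  have hcase : (k = -1 ∧ s = 3) ∨ (k = 0 ∧ s = 0) ∨ (k = -1 ∧ s = 2) := by omega
  rcases hcase with ⟨rfl, rfl⟩ | ⟨rfl, rfl⟩ | ⟨rfl, rfl⟩
  · exact ⟨0, by rw [r.three]; simp⟩
  · obtain ⟨n1, k1, s1, h1, rfl, rfl, r1, c1⟩ := r.peel (by omega)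
    have := r1.le3
    have u2 := (G.li.lt_iff T.x _ _).mp u1
    have j1 := G.idx_le r1 red_ywx2 u2.le
    obtain rfl : s1 = 1 := by omega
    obtain rfl : k1 = -1 := by omega
    obtain ⟨n2, k2, s2, h2, rfl, rfl, r2, c2⟩ := r1.peel (by omega)
    have := r2.le3
    have u3 := (G.li.lt_iff T.y _ _).mp u2
    have j2 := G.idx_le r2 red_wx2 u3.le
    obtain rfl : s2 = 2 := by omega
    obtain ⟨n3, k3, s3, h3, rfl, rfl, r3, c3⟩ := r2.peel (by omega)
    have hJ' := G.J_emul hJ (-1)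
    have e1 : T.e ^ (-1 : ℤ) * (T.g 0 * (T.g 1 * (T.g 2 * h3))) = T.z ^ (2 : ℤ) * h3 := by
      rw [zpow_neg_one, inv_mul_eq_iff_eq_mul, e_mul]
      simp only [g]
      congr 3
      group
    rw [e1] at hJ'
    obtain ⟨m, hm⟩ := ih n3 (by omega) (r3.zmul 2) hJ'
    refine ⟨1 + m, ?_⟩
    rw [zpow_add, ← hm, ← e1]; group
  · obtain ⟨n1, k1, s1, h1, rfl, rfl, r1, c1⟩ := r.peel (by omega)
    have := r1.le3
    have l2 := (G.li.lt_iff T.w _ _).mp l1
    have j1 := G.idx_le red_y1 r1 l2.le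
    obtain rfl : s1 = 1 := by omega
    obtain rfl : k1 = -1 := by omega
    obtain ⟨n2, k2, s2, h2, rfl, rfl, r2, c2⟩ := r1.peel (by omega)
    have := r2.le3
    have l3 := (G.li.lt_iff T.y _ _).mp l2
    have j2 := G.idx_le red_zi r2 l3.le
    have hs2 : s2 = 0 := by
      by_contra hc
      obtain rfl : s2 = 3 := by omega
      obtain rfl : k2 = -2 := by omega
      rw [r2.three] at l3
      simp at l3
    subst hs2
    obtain ⟨n3, k3, s3, h3, rfl, rfl, r3, c3⟩ := r2.peel (by omega)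
    have hJ' := G.J_emul hJ 1
    have e1 : T.e ^ (1 : ℤ) * (T.g 2 * (T.g 1 * (T.g 0 * h3))) = T.z ^ (1 : ℤ) * h3 := by
      rw [zpow_one, zpow_one]
      exact T.e_mul_wyx h3
    rw [e1] at hJ'
    obtain ⟨m, hm⟩ := ih n3 (by omega) (r3.zmul 1) hJ'
    refine ⟨-1 + m, ?_⟩
    rw [zpow_add, ← hm, ← e1]; group

lemma cof {h : H} (hh : h ∈ T.A) (hJ : T.J f h) : h ∈ Subgroup.zpowers T.e := by
  obtain ⟨n, k, s, r⟩ := exists_red hh
  obtain ⟨m, hm⟩ := G.cof_aux n r hJ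
  exact ⟨m, hm.symm⟩

lemma sep_pos {a g : H} (ha : a ∈ T.A) (hne : a ∉ Subgroup.zpowers T.e) (hg : T.J f g)
    (hp : f 1 < f a) : f 1 < f (a * g) := by
  have h1 : ¬ T.J f a⁻¹ := fun hJ => hne (by simpa using G.cof (T.A.inv_mem ha) hJ)
  have h2 := G.li.inv_neg hp
  simp only [J, not_forall, not_and, not_lt] at h1
  obtain ⟨n, hn⟩ := h1
  have h3 : f a⁻¹ ≤ f (T.e ^ n * T.x⁻¹) := by
    by_contra hc
    push Not at hc
    exact absurd ((G.J_one n).2.trans_le (hn hc)) (not_lt.mpr h2.le)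
  simpa using G.li.lt a (h3.trans_lt (hg n).1)

lemma sep_neg {a g : H} (ha : a ∈ T.A) (hne : a ∉ Subgroup.zpowers T.e) (hg : T.J f g)
    (hp : f a < f 1) : f (a * g) < f 1 := by
  have h1 : ¬ T.J f a⁻¹ := fun hJ => hne (by simpa using G.cof (T.A.inv_mem ha) hJ)
  have h2 := G.li.inv_pos hp
  simp only [J, not_forall, not_and, not_lt] at h1
  obtain ⟨n, hn⟩ := h1
  have h3 := hn ((G.J_one n).1.trans h2)
  simpa using G.li.lt a ((hg n).2.trans_le h3)

lemma sep_iff {a g : H} (ha : a ∈ T.A) (hne : a ∉ Subgroup.zpowers T.e) (hg : T.J f g) :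
    f 1 < f (a * g) ↔ f 1 < f a := by
  refine ⟨fun h => ?_, G.sep_pos ha hne hg⟩
  rcases lt_trichotomy (f 1) (f a) with h1 | h1 | h1
  · exact h1
  · exact absurd (by rw [G.free ha h1.symm]; exact Subgroup.one_mem _) hne
  · exact absurd h (not_lt.mpr (G.sep_neg ha hne hg h1).le)

/-- an element commuting with the triangle group and inside the hull of `z` is a power of `z`
up to the gap -/
lemma cent {u : H} (hx : Commute u T.x) (hy : Commute u T.y) (hw : Commute u T.w)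
    {m m' : ℤ} (h1 : f (T.z ^ m) ≤ f u) (h2 : f u ≤ f (T.z ^ m')) :
    ∃ j : ℤ, T.J f (T.z ^ (-j) * u) := by
  have hmono : StrictMono fun n : ℤ => f (T.z ^ n * T.x) :=
    G.li.zpow_strictMono (G.lt_z T.cx)
  have a1 : f (T.z ^ (m - 1) * T.x) ≤ f u := by
    have := G.li.lt (T.z ^ (m - 1)) G.x_lt_z
    rw [← zpow_add_one, sub_add_cancel] at this
    exact this.le.trans h1
  have a2 : f u < f (T.z ^ m' * T.x) := by
    have := G.li.lt (T.z ^ m') G.x_pos
    rw [mul_one] at this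
    exact h2.trans_lt this
  obtain ⟨j, b1, b2⟩ := LI.exists_floor hmono.monotone a1 a2
  refine ⟨j + 1, ?_⟩
  set u' := T.z ^ (-(j + 1)) * u with hu'
  have c1 : f T.x⁻¹ ≤ f u' := by
    have := G.li.le (T.z ^ (-(j + 1))) b1
    rw [← mul_assoc, ← zpow_add, show -(j + 1) + j = -1 by ring, zpow_neg_one, ← xinv] at this
    exact this
  have c2 : f u' < f T.x := by
    have := G.li.lt (T.z ^ (-(j + 1))) b2
    rw [← mul_assoc, ← zpow_add, neg_add_cancel, zpow_zero, one_mul] at this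
    exact this
  have hce : Commute u' T.e :=
    ((ce.zpow_left _).mul_left (T.comm_A hx hy hw T.e_mem))
  clear_value u'
  have c3 : f u' < f (T.e * u') := by
    have := G.li.lt u' G.he
    rwa [mul_one, hce.eq] at this
  have up : ∀ n : ℕ, f u' < f (T.e ^ (n : ℤ) * T.x) := by
    intro n
    induction n with
    | zero => simpa using c2
    | succ n ih =>
      have := G.li.lt T.e ih
      rw [← mul_assoc, ← zpow_one_add] at this
      rw [Nat.cast_succ, add_comm]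
      exact c3.trans this
  have down : ∀ n : ℕ, f (T.e ^ (-(n : ℤ)) * T.x⁻¹) ≤ f u' := by
    intro n
    induction n with
    | zero => simpa using c1
    | succ n ih =>
      by_contra hc
      push Not at hc
      have := G.li.lt T.e hc
      rw [← mul_assoc, ← zpow_one_add] at this
      rw [show (1 : ℤ) + -((n + 1 : ℕ) : ℤ) = -(n : ℤ) by push_cast; ring] at this
      exact absurd (c3.trans this) (not_lt.mpr ih)
  intro n
  constructor
  · have h3 := G.exi_anti (show -((n.natAbs + 1 : ℕ) : ℤ) < n by omega)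
    exact h3.trans_le (down _)
  · have h3 := G.ex_anti.antitone (show n ≤ (n.natAbs : ℤ) by omega)
    exact (up _).trans_le h3

lemma J_mul {u g : H} (hx : Commute u T.x) (hy : Commute u T.y) (hw : Commute u T.w)
    (hu : T.J f u) (hg : T.J f g) : T.J f (u * g) := by
  have hce : Commute u T.e := T.comm_A hx hy hw T.e_mem
  intro n
  constructor
  · have h1 := G.li.lt u (hg (n - 1)).1
    have e1 : u * (T.e ^ (n - 1) * T.x⁻¹) = T.e ^ (n - 1) * T.x⁻¹ * u :=
      ((hce.zpow_right _).mul_right hx.inv_right).eq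
    have h2 : f (T.x * T.e * T.x⁻¹) < f u := by
      refine lt_trans ?_ (hu (-1)).1
      rw [zpow_neg_one, eixi_eq]
      have e2 : T.x * T.e * T.x⁻¹ = T.y * (T.w * (T.x * (T.z⁻¹ * T.z⁻¹))) := by
        rw [mul_assoc, e_mul, xx, zy, zw, mul_inv_cancel_left, xinv, zix', zix]
      rw [e2]; exact G.K3
    have h3 := G.li.lt (T.e ^ (n - 1) * T.x⁻¹) h2
    have e3 : T.e ^ (n - 1) * T.x⁻¹ * (T.x * T.e * T.x⁻¹) = T.e ^ n * T.x⁻¹ := by group
    rw [e3] at h3
    rw [e1] at h1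
    exact h3.trans h1
  · have h1 := G.li.lt u (hg (n + 1)).2
    have e1 : u * (T.e ^ (n + 1) * T.x) = T.e ^ (n + 1) * T.x * u :=
      ((hce.zpow_right _).mul_right hx).eq
    have h2 : f u < f (T.x⁻¹ * T.e⁻¹ * T.x) := by
      refine lt_trans (hu 1).2 ?_
      rw [zpow_one, ex_eq]
      have e2 : T.x⁻¹ * T.e⁻¹ * T.x = T.x * (T.w * (T.y * T.z⁻¹)) := by
        rw [mul_assoc, einv_mul, zix', xx, xinv, mul_assoc, zix, ziw, ziy]
        simp
      rw [e2]; exact G.li.lt _ G.K3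
    have h3 := G.li.lt (T.e ^ (n + 1) * T.x) h2
    have e3 : T.e ^ (n + 1) * T.x * (T.x⁻¹ * T.e⁻¹ * T.x) = T.e ^ n * T.x := by group
    rw [e3] at h3
    rw [e1] at h1
    exact h1.trans h3

lemma ex_not_mem (n : ℤ) : T.e ^ n * T.x ∉ Subgroup.zpowers T.e := by
  rintro ⟨m, hm⟩
  have := (G.J_e m n).2
  simp only at hm
  rw [hm] at this
  exact lt_irrefl _ this

lemma exi_not_mem (n : ℤ) : T.e ^ n * T.x⁻¹ ∉ Subgroup.zpowers T.e := by
  rintro ⟨m, hm⟩
  have := (G.J_e m n).1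
  simp only at hm
  rw [hm] at this
  exact lt_irrefl _ this

lemma J_inv {u : H} (hx : Commute u T.x) (hy : Commute u T.y) (hw : Commute u T.w)
    (hu : T.J f u) : T.J f u⁻¹ := by
  intro n
  have m1 : T.e ^ n * T.x⁻¹ ∈ T.A := T.A.mul_mem (T.A.zpow_mem T.e_mem n) (T.A.inv_mem T.x_mem)
  have m2 : T.e ^ n * T.x ∈ T.A := T.A.mul_mem (T.A.zpow_mem T.e_mem n) T.x_mem
  constructor
  · have h1 := G.sep_neg m1 (G.exi_not_mem n) hu (G.J_one n).1
    rw [← (T.comm_A hx hy hw m1).eq] at h1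
    simpa using G.li.lt u⁻¹ h1
  · have h1 := G.sep_pos m2 (G.ex_not_mem n) hu (G.J_one n).2
    rw [← (T.comm_A hx hy hw m2).eq] at h1
    simpa using G.li.lt u⁻¹ h1

lemma J_zpow {u : H} (hx : Commute u T.x) (hy : Commute u T.y) (hw : Commute u T.w)
    (hu : T.J f u) (i : ℤ) : T.J f (u ^ i) := by
  induction i using Int.induction_on with
  | zero => simpa using G.J_one
  | succ i ih =>
    rw [add_comm, zpow_one_add]
    exact G.J_mul hx hy hw hu ih
  | pred i ih =>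
    rw [show -(i : ℤ) - 1 = -1 + -(i : ℤ) by ring, zpow_add, zpow_neg_one]
    exact G.J_mul hx.inv_left hy.inv_left hw.inv_left (G.J_inv hx hy hw hu) ih

lemma J_between {g : H} {m m' : ℤ} (h1 : f (T.e ^ m) ≤ f g) (h2 : f g ≤ f (T.e ^ m')) :
    T.J f g := fun n => ⟨(G.J_e m n).1.trans_le h1, h2.trans_lt (G.J_e m' n).2⟩

/-- an element exchanging `x` and `y` and fixing `w` cannot lie in the hull of `z` -/
lemma twist {u : H} (hx : u * T.x = T.y * u) (hy : u * T.y = T.x * u) (hw : u * T.w = T.w * u) :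
    ¬ ∃ m m' : ℤ, f (T.z ^ m) ≤ f u ∧ f u ≤ f (T.z ^ m') := by
  rintro ⟨m, m', h1, h2⟩
  have hz : u * T.z = T.z * u := by
    rw [← T.hw, ← mul_assoc, hw, mul_assoc, hw, mul_assoc]
  have hzi : ∀ a, u * (T.z⁻¹ * a) = T.z⁻¹ * (u * a) := by
    intro a
    rw [← mul_assoc, ← mul_assoc, (show Commute u T.z from hz).inv_right.eq]
  have e1 : T.w * u * T.e = T.e⁻¹ * (T.z⁻¹ * (T.w * u)) := by
    have := T.e_mul 1
    rw [mul_one] at this
    rw [einv_mul, mul_assoc, this, ← mul_assoc u, hx, mul_assoc, ← mul_assoc u, hy, mul_assoc,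
      ← mul_assoc u, hw, mul_assoc, hzi, hzi, ziw, ziw, mul_one]
  have h3 := G.li.lt (T.w * u) G.he
  rw [mul_one, e1] at h3
  have w1 : f 1 < f T.w := by
    have := G.li.lt_of_sq (a := T.w) (g := 1) (by simpa [T.hw] using G.hz)
    simpa using this
  have w2 : f T.w < f T.z := by
    have := G.li.sq_lt (a := T.w) (g := 1) (by simpa [T.hw] using G.hz)
    simpa [T.hw] using this
  have a1 : f (T.z ^ m) ≤ f (T.w * u) := by
    have h4 := G.li.le T.w h1
    have h5 := G.li.lt (T.z ^ m) w1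
    rw [mul_one, ← (T.cw.zpow_right m).eq] at h5
    exact h5.le.trans h4
  have a2 : f (T.w * u) < f (T.z ^ (m' + 1)) := by
    have h4 := G.li.le T.w h2
    have h5 := G.li.lt (T.z ^ m') w2
    rw [← (T.cw.zpow_right m').eq, ← zpow_add_one] at h5
    exact h4.trans_lt h5
  obtain ⟨j, b1, b2⟩ := LI.exists_floor G.z_mono.monotone a1 a2
  have h6 := G.li.lt (T.e⁻¹ * T.z⁻¹) b2
  have e2 : T.e⁻¹ * T.z⁻¹ * T.z ^ (j + 1) = T.z ^ j * T.e⁻¹ := by
    rw [(ce.zpow_left j).inv_right.eq]; group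
  have h7 := G.li.lt (T.z ^ j) (G.li.inv_neg G.he)
  rw [e2, mul_assoc] at h6
  rw [mul_one] at h7
  exact absurd (h3.trans (h6.trans h7)) (not_lt.mpr b1)

end Good

end Tri

end Pool.Agent.MP_cb5d7d_al
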