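import Pool.Agent.MP_cb5d7d_al.Model

/-! The topological conclusion. -/

namespace Pool.Agent.MP_cb5d7d_al

open Set Topology

lemma cantor_open_uncountable {V : Set (ℕ → Bool)} (hV : IsOpen V) (hne : V.Nonempty) :
    ¬ V.Countable := by
  obtain ⟨v, hv⟩ := hne
  obtain ⟨I, t, ht, hsub⟩ := isOpen_pi_iff.mp hV v hv
  obtain ⟨n, hn⟩ : ∃ n, ∀ i ∈ I, i < n := ⟨I.sup id + 1, fun i hi =>
    Nat.lt_succ_of_le (Finset.le_sup (f := id) hi)⟩
  intro hc
  let φ : (ℕ → Bool) → (ℕ → Bool) := fun g i => if i < n then v i else g (i - n)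
  have hφ : Function.Injective φ := by
    intro g g' h
    funext i
    have := congrFun h (i + n)
    simpa [φ] using this
  have hmem : ∀ g, φ g ∈ V := by
    intro g
    apply hsub
    intro i hi
    have := hn i hi
    simp only [φ, this, if_true]
    exact (ht i hi).2
  have h1 : Countable (ℕ → Bool) := by
    have := hc.to_subtype
    exact Function.Injective.countable (f := fun g => (⟨φ g, hmem g⟩ : V))
      (fun g g' h => hφ (congrArg Subtype.val h))
  obtain ⟨f, hf⟩ := exists_surjective_nat (ℕ → Bool)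
  obtain ⟨k, hk⟩ := hf fun i => !(f i i)
  have := congrFun hk k
  simp at this

theorem not_cantor {X : Type*} [TopologicalSpace X] {S O : Set X} (hS : IsCompact S)
    (hS' : IsClosed S) (hO : IsClopen O) (h1 : (S ∩ O).Infinite) (h2 : (S ∩ O).Countable) :
    (derivedSet S).Nonempty ∧ ¬ Nonempty (derivedSet S ≃ₜ (ℕ → Bool)) := by
  obtain ⟨c, hc, hacc⟩ := h1.exists_accPt_of_subset_isCompact (hS.inter_right hO.1) Subset.rfl
  have hc' : c ∈ derivedSet S := hacc.mono (by simp)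
  refine ⟨⟨c, hc'⟩, ?_⟩
  rintro ⟨φ⟩
  have hsub := (isClosed_iff_derivedSet_subset S).mp hS'
  let O' : Set (derivedSet S) := Subtype.val ⁻¹' O
  have hO' : IsOpen O' := hO.2.preimage continuous_subtype_val
  have hcount : O'.Countable := by
    apply Set.Countable.mono _ (h2.preimage_of_injOn (f := (Subtype.val : derivedSet S → X))
      Subtype.val_injective.injOn)
    intro d hd
    exact ⟨hsub d.2, hd⟩
  exact cantor_open_uncountable (φ.isOpenMap _ hO') ⟨φ ⟨c, hc'⟩, ⟨c, hc'⟩, hc.2, rfl⟩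
    (hcount.image _)

variable {Γ : Type*} [Group Γ]

lemma cont (a b d : Γ) : Continuous fun c : Γ → Γ → Γ → ℤ => c a b d := by fun_prop

lemma clopen_eq (a b d : Γ) (m : ℤ) : IsClopen {c : Γ → Γ → Γ → ℤ | c a b d = m} :=
  (isClopen_discrete ({m} : Set ℤ)).preimage (cont a b d)

lemma co_closed : IsClosed {c : Γ → Γ → Γ → ℤ | IsCO c} := by
  have : {c : Γ → Γ → Γ → ℤ | IsCO c} =
      (⋂ a, ⋂ b, ⋂ d, (fun c : Γ → Γ → Γ → ℤ => c a b d) ⁻¹' {m | m = 0 ∨ m = 1 ∨ m = -1}) ∩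
      (⋂ a, ⋂ b, ⋂ d, (fun c : Γ → Γ → Γ → ℤ => c a b d) ⁻¹'
        {m | m = 0 ↔ (a = b ∨ b = d ∨ a = d)}) ∩
      (⋂ g₁, ⋂ g₂, ⋂ g₃, ⋂ g₄,
        {c : Γ → Γ → Γ → ℤ | c g₂ g₃ g₄ - c g₁ g₃ g₄ + c g₁ g₂ g₄ - c g₁ g₂ g₃ = 0}) ∩
      (⋂ g, ⋂ a, ⋂ b, ⋂ d, {c : Γ → Γ → Γ → ℤ | c (g * a) (g * b) (g * d) = c a b d}) := by
    ext c
    simp only [mem_inter_iff, mem_iInter, mem_preimage, mem_ofPred_eq]
    exact ⟨fun h => ⟨⟨⟨h.val, h.zero⟩, h.coc⟩, h.inv⟩, fun h => ⟨h.1.1.1, h.1.1.2, h.1.2, h.2⟩⟩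
  rw [this]
  refine IsClosed.inter (IsClosed.inter (IsClosed.inter ?_ ?_) ?_) ?_
  · exact isClosed_iInter fun a => isClosed_iInter fun b => isClosed_iInter fun d =>
      (isClosed_discrete _).preimage (cont a b d)
  · exact isClosed_iInter fun a => isClosed_iInter fun b => isClosed_iInter fun d =>
      (isClosed_discrete _).preimage (cont a b d)
  · exact isClosed_iInter fun a => isClosed_iInter fun b => isClosed_iInter fun d =>
      isClosed_iInter fun e => isClosed_eq (by fun_prop) continuous_const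
  · exact isClosed_iInter fun a => isClosed_iInter fun b => isClosed_iInter fun d =>
      isClosed_iInter fun e => isClosed_eq (by fun_prop) (by fun_prop)

lemma co_compact : IsCompact {c : Γ → Γ → Γ → ℤ | IsCO c} := by
  have hK : IsCompact (univ.pi fun _ : Γ => univ.pi fun _ : Γ => univ.pi fun _ : Γ =>
      ({0, 1, -1} : Set ℤ)) :=
    isCompact_univ_pi fun _ => isCompact_univ_pi fun _ => isCompact_univ_pi fun _ =>
      (Set.toFinite _).isCompact
  refine hK.of_isClosed_subset co_closed ?_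
  intro c hc a _ b _ d _
  simpa using IsCO.val hc a b d

theorem final : (derivedSet {c : Gam → Gam → Gam → ℤ | IsCO c}).Nonempty ∧
    ¬ Nonempty (derivedSet {c : Gam → Gam → Gam → ℤ | IsCO c} ≃ₜ (ℕ → Bool)) := by
  apply not_cantor co_compact co_closed
    (O := {c | c SS.τ 1 SS.z = 1} ∩ ({c | c SS.τ 1 SS.e = 1} ∩ {c | c SS.τ 1 SS.L.e = 1}))
    ((clopen_eq _ _ _ _).inter ((clopen_eq _ _ _ _).inter (clopen_eq _ _ _ _)))
  · exact U_infinite
  · exact SS.U_countable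

end Pool.Agent.MP_cb5d7d_al
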