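import Pool.Agent.MP_cb5d7d_al.PingPong

/-! Circular orders, the linear order obtained by cutting at a point, and the central extension. -/

namespace Pool.Agent.MP_cb5d7d_al

variable {Γ : Type*} [Group Γ]

structure IsCO (c : Γ → Γ → Γ → ℤ) : Prop where
  val : ∀ a b d, c a b d = 0 ∨ c a b d = 1 ∨ c a b d = -1
  zero : ∀ a b d, c a b d = 0 ↔ (a = b ∨ b = d ∨ a = d)
  coc : ∀ g₁ g₂ g₃ g₄, c g₂ g₃ g₄ - c g₁ g₃ g₄ + c g₁ g₂ g₄ - c g₁ g₂ g₃ = 0
  inv : ∀ g a b d, c (g * a) (g * b) (g * d) = c a b d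

namespace IsCO
variable {c : Γ → Γ → Γ → ℤ} (hc : IsCO c)
include hc

lemma z12 (a d : Γ) : c a a d = 0 := (hc.zero _ _ _).mpr (Or.inl rfl)
lemma z23 (a d : Γ) : c a d d = 0 := (hc.zero _ _ _).mpr (Or.inr (Or.inl rfl))
lemma z13 (a d : Γ) : c a d a = 0 := (hc.zero _ _ _).mpr (Or.inr (Or.inr rfl))

lemma sw12 (a b d : Γ) : c b a d = - c a b d := by
  have := hc.coc a b a d
  rw [hc.z12, hc.z13] at this
  omega

lemma sw23 (a b d : Γ) : c a d b = - c a b d := by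
  have := hc.coc a b d b
  rw [hc.z13, hc.z23] at this
  omega

lemma rot (a b d : Γ) : c b d a = c a b d := by
  rw [hc.sw23, hc.sw12]; omega

end IsCO

def clt (c : Γ → Γ → Γ → ℤ) (o a b : Γ) : Prop := (a = o ∧ b ≠ o) ∨ c o a b = 1

/-- the group with the linear order obtained by cutting the circle at `o` -/
def Cut {c : Γ → Γ → Γ → ℤ} (_hc : IsCO c) (_o : Γ) : Type _ := Γ

lemma clt_sto {c : Γ → Γ → Γ → ℤ} (hc : IsCO c) (o : Γ) :
    IsStrictTotalOrder (Cut hc o) (clt c o) where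
  trichotomous := by
    intro a b h1 h2
    by_contra hne
    simp only [clt, not_or, not_and, not_not] at h1 h2
    have ha : (a : Γ) ≠ o := fun h => hne (h.trans (h1.1 h).symm)
    have hb : (b : Γ) ≠ o := fun h => hne ((h2.1 h).trans h.symm)
    have h3 := hc.val o a b
    have h4 := hc.sw23 o a b
    have h5 := (hc.zero o a b).not.mpr (by
      rintro (h | h | h)
      · exact ha h.symm
      · exact hne h
      · exact hb h.symm)
    have := h1.2
    have := h2.2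
    omega
  irrefl := by
    intro a h
    rcases h with ⟨h1, h2⟩ | h
    · exact h2 h1
    · rw [hc.z23] at h; omega
  trans := by
    intro a b d h1 h2
    have hd : (d : Γ) ≠ o := by
      rcases h2 with ⟨-, h⟩ | h
      · exact h
      · intro e; rw [e, hc.z13] at h; omega
    rcases h1 with ⟨h1, -⟩ | h1
    · exact Or.inl ⟨h1, hd⟩
    · rcases h2 with ⟨e, -⟩ | h2
      · rw [e, hc.z13] at h1; omega
      · right
        have h3 := hc.coc o a b d
        have h4 := hc.val o a d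
        have h5 := hc.val a b d
        omega

noncomputable instance {c : Γ → Γ → Γ → ℤ} (hc : IsCO c) (o : Γ) : LinearOrder (Cut hc o) :=
  haveI := clt_sto hc o
  haveI := Classical.decRel (clt c o : Cut hc o → Cut hc o → Prop)
  linearOrderOfSTO (clt c o)

namespace IsCO
variable {c : Γ → Γ → Γ → ℤ} (hc : IsCO c)

def ι (o a : Γ) : Cut hc o := a

lemma ι_lt (o a b : Γ) : hc.ι o a < hc.ι o b ↔ (a = o ∧ b ≠ o) ∨ c o a b = 1 := Iff.rfl

lemma ι_inj (o a b : Γ) : hc.ι o a = hc.ι o b ↔ a = b := Iff.rfl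

lemma cyc_iff (o u v w : Γ) : c u v w = 1 ↔ (hc.ι o u < hc.ι o v ∧ hc.ι o v < hc.ι o w) ∨
    (hc.ι o v < hc.ι o w ∧ hc.ι o w < hc.ι o u) ∨ (hc.ι o w < hc.ι o u ∧ hc.ι o u < hc.ι o v) := by
  simp only [ι_lt]
  have h0 := hc.coc o u v w
  have h1 := hc.sw23 o u w
  have v1 := hc.val o u v
  have v2 := hc.val o v w
  have v3 := hc.val o u w
  have v4 := hc.val u v w
  by_cases e1 : u = v
  · subst e1
    simp only [hc.z12, hc.z23] at *
    by_cases e2 : u = o <;> by_cases e3 : w = o <;> simp [e2, e3, hc.z12, hc.z13] <;> omega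
  by_cases e2 : v = w
  · subst e2
    simp only [hc.z23] at *
    by_cases e2 : u = o <;> by_cases e3 : v = o <;> simp [e2, e3, hc.z12, hc.z13] <;> omega
  by_cases e3 : u = w
  · subst e3
    have := hc.sw23 o u v
    simp only [hc.z13, hc.z23] at *
    by_cases e2 : u = o <;> by_cases e3 : v = o <;> simp [e2, e3, hc.z12, hc.z13] <;> omega
  by_cases a1 : u = o
  · subst a1
    simp [hc.z12, hc.z13, Ne.symm e1, Ne.symm e3]
  by_cases a2 : v = o
  · subst a2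
    have := hc.rot u v w
    simp [hc.z12, hc.z13, e1, Ne.symm e2, this]
  by_cases a3 : w = o
  · subst a3
    have := hc.rot w u v
    simp [hc.z12, hc.z13, e2, e3, this]
  have n1 : c o u v ≠ 0 := (hc.zero o u v).not.mpr (by simp [e1, Ne.symm a1, Ne.symm a2])
  have n2 : c o v w ≠ 0 := (hc.zero o v w).not.mpr (by simp [e2, Ne.symm a2, Ne.symm a3])
  have n3 : c o u w ≠ 0 := (hc.zero o u w).not.mpr (by simp [e3, Ne.symm a1, Ne.symm a3])
  simp only [a1, a2, a3, false_and, false_or]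
  omega

lemma shift (a b b' : Γ) : hc.ι 1 b < hc.ι 1 b' ↔
    (hc.ι 1 (a * b) = hc.ι 1 a ∧ hc.ι 1 (a * b') ≠ hc.ι 1 a) ∨
    (hc.ι 1 a < hc.ι 1 (a * b) ∧ hc.ι 1 (a * b) < hc.ι 1 (a * b')) ∨
    (hc.ι 1 (a * b) < hc.ι 1 (a * b') ∧ hc.ι 1 (a * b') < hc.ι 1 a) ∨
    (hc.ι 1 (a * b') < hc.ι 1 a ∧ hc.ι 1 a < hc.ι 1 (a * b)) := by
  rw [← hc.cyc_iff, ι_lt, ← hc.inv a 1 b b', mul_one]
  simp [ι_inj]

lemma not_lt_one (b : Γ) : ¬ hc.ι 1 b < hc.ι 1 1 := by
  simp [ι_lt, hc.z13]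

noncomputable def κ (a b : Γ) : ℤ := if hc.ι 1 (a * b) < hc.ι 1 a then 1 else 0

lemma κ_coc (a b d : Γ) : hc.κ a b + hc.κ (a * b) d = hc.κ b d + hc.κ a (b * d) := by
  simp only [κ, hc.shift a (b * d) b, ← mul_assoc]
  generalize hc.ι 1 a = u
  generalize hc.ι 1 (a * b) = v
  generalize hc.ι 1 (a * b * d) = w
  split_ifs <;> first | rfl | (exfalso; grind)

lemma κ_one_left (b : Γ) : hc.κ 1 b = 0 := by simp [κ, hc.not_lt_one]
lemma κ_one_right (a : Γ) : hc.κ a 1 = 0 := by simp [κ]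
lemma κ_val (a b : Γ) : 0 ≤ hc.κ a b ∧ hc.κ a b ≤ 1 := by
  unfold κ; split_ifs <;> simp

end IsCO

/-- the central extension attached to a circular order -/
@[ext] structure Lift {c : Γ → Γ → Γ → ℤ} (hc : IsCO c) where
  m : ℤ
  a : Γ

namespace Lift
variable {c : Γ → Γ → Γ → ℤ} {hc : IsCO c}

noncomputable instance : Mul (Lift hc) := ⟨fun g h => ⟨g.m + h.m + hc.κ g.a h.a, g.a * h.a⟩⟩
instance : One (Lift hc) := ⟨⟨0, 1⟩⟩
noncomputable instance : Inv (Lift hc) := ⟨fun g => ⟨-g.m - hc.κ g.a⁻¹ g.a, g.a⁻¹⟩⟩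

@[simp] lemma mul_m (g h : Lift hc) : (g * h).m = g.m + h.m + hc.κ g.a h.a := rfl
@[simp] lemma mul_a (g h : Lift hc) : (g * h).a = g.a * h.a := rfl
@[simp] lemma one_m : (1 : Lift hc).m = 0 := rfl
@[simp] lemma one_a : (1 : Lift hc).a = 1 := rfl
@[simp] lemma inv_m (g : Lift hc) : g⁻¹.m = -g.m - hc.κ g.a⁻¹ g.a := rfl
@[simp] lemma inv_a (g : Lift hc) : g⁻¹.a = g.a⁻¹ := rfl

noncomputable instance : Group (Lift hc) := Group.ofLeftAxioms
  (fun g h k => by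
    ext
    · have := hc.κ_coc g.a h.a k.a
      simp only [mul_m, mul_a]; omega
    · simp [mul_assoc])
  (fun g => by ext <;> simp [hc.κ_one_left])
  (fun g => by
    ext
    · simp only [mul_m, inv_m, inv_a, one_m]; omega
    · simp)

noncomputable def pos (g : Lift hc) : ℤ ×ₗ Cut hc 1 := toLex (g.m, hc.ι 1 g.a)

lemma pos_lt (g h : Lift hc) :
    pos g < pos h ↔ g.m < h.m ∨ (g.m = h.m ∧ hc.ι 1 g.a < hc.ι 1 h.a) := by
  simp [pos, Prod.Lex.toLex_lt_toLex]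

lemma li : LI (pos : Lift hc → _) := by
  intro k g h
  simp only [pos_lt, mul_m, mul_a, IsCO.κ, hc.shift k.a g.a h.a]
  generalize hc.ι 1 k.a = u
  generalize hc.ι 1 (k.a * g.a) = v
  generalize hc.ι 1 (k.a * h.a) = w
  intro h1
  split_ifs <;> grind

def T (hc : IsCO c) (k : ℤ) : Lift hc := ⟨k, 1⟩

lemma T_mul (k : ℤ) (g : Lift hc) : T hc k * g = ⟨k + g.m, g.a⟩ := by
  ext <;> simp [T, hc.κ_one_left]

lemma mul_T (k : ℤ) (g : Lift hc) : g * T hc k = ⟨k + g.m, g.a⟩ := by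
  ext <;> simp [T, hc.κ_one_right, add_comm]

lemma T_comm (k : ℤ) (g : Lift hc) : Commute (T hc k) g := by
  show _ = _
  rw [T_mul, mul_T]

lemma T_zpow (k n : ℤ) : T hc k ^ n = T hc (k * n) := by
  induction n using Int.induction_on with
  | zero => ext <;> simp [T]
  | succ n ih => rw [zpow_add_one, ih, T_mul]; ext <;> simp [T, mul_add]
  | pred n ih =>
    rw [zpow_sub_one, ih, mul_inv_eq_iff_eq_mul, T_mul]; ext <;> simp [T, mul_sub]

lemma lt_T (g : Lift hc) : pos g < pos (T hc 1 * g) := by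
  rw [T_mul, pos_lt]; left; simp

lemma between {g h k : Lift hc} (h1 : pos g < pos h) (h2 : pos h < pos k)
    (h3 : pos k < pos (T hc 1 * g)) : c g.a h.a k.a = 1 := by
  rw [hc.cyc_iff 1]
  rw [T_mul] at h3
  simp only [pos_lt] at h1 h2 h3
  grind

lemma sq_T {i : Γ} (hi : i * i = 1) (h1 : i ≠ 1) : (⟨0, i⟩ : Lift hc) * ⟨0, i⟩ = T hc 1 := by
  ext
  · simp [T, IsCO.κ, hi, IsCO.ι_lt, h1]
  · simp [T, hi]

def Bd (g : Lift hc) : Prop := ∃ N : ℤ, ∀ n : ℤ, -N ≤ (g ^ n).m ∧ (g ^ n).m ≤ N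

lemma Bd.conj {g : Lift hc} (hg : Bd g) (h : Lift hc) : Bd (h * g * h⁻¹) := by
  obtain ⟨N, hN⟩ := hg
  refine ⟨N + |h.m| + |h⁻¹.m| + 2, fun n => ?_⟩
  rw [conj_zpow, mul_m, mul_m]
  have := hN n
  have := hc.κ_val h.a (g ^ n).a
  have := hc.κ_val (h * g ^ n).a h⁻¹.a
  have := le_abs_self h.m
  have := neg_abs_le h.m
  have := le_abs_self h⁻¹.m
  have := neg_abs_le h⁻¹.m
  omega

lemma Bd.inv {g : Lift hc} (hg : Bd g) : Bd g⁻¹ := by
  obtain ⟨N, hN⟩ := hg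
  exact ⟨N, fun n => by simpa using hN (-n)⟩

lemma Bd.unique {g h : Lift hc} (hg : Bd g) (hh : Bd h) (e : g.a = h.a) : g = h := by
  obtain ⟨N, hN⟩ := hg
  obtain ⟨M, hM⟩ := hh
  have e1 : g = T hc (g.m - h.m) * h := by rw [T_mul]; ext <;> simp [e]
  have e2 : ∀ n : ℤ, (g ^ n).m = (g.m - h.m) * n + (h ^ n).m := by
    intro n
    conv_lhs => rw [e1, (T_comm _ _).mul_zpow, T_zpow, T_mul]
  have h0 := hN 0
  have h0' := hM 0
  simp only [zpow_zero, one_m] at h0 h0'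
  have h1 := hN (N + M + 1)
  have h2 := hM (N + M + 1)
  rw [e2] at h1
  have : g.m - h.m = 0 := by
    by_contra hne
    rcases lt_or_gt_of_ne hne with h3 | h3 <;> nlinarith
  rw [e1, this, T_mul]; ext <;> simp

def proj (hc : IsCO c) : Lift hc →* Γ where
  toFun := Lift.a
  map_one' := rfl
  map_mul' _ _ := rfl

end Lift

end Pool.Agent.MP_cb5d7d_al
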