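import Pool.Agent.MP_cb5d7d_al.Rigid
import Pool.Agent.MP_cb5d7d_al.Lift

/-! An involution inverting all generators forces every circular order to be linear on the
index two subgroup. -/

namespace Pool.Agent.MP_cb5d7d_al

section Dom
variable {H : Type*} [Group H] {Ω : Type*} [LinearOrder Ω] {f : H → Ω}

/-- elements moving every point inside the hull of its `z`-orbit -/
def Dom (l : LI f) (z : H) : Subgroup H where
  carrier := {g | ∀ h, ∃ m m' : ℤ, f (z ^ m * h) ≤ f (g * h) ∧ f (g * h) ≤ f (z ^ m' * h)}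
  one_mem' := fun h => ⟨0, 0, by simp, by simp⟩
  mul_mem' := by
    intro a b ha hb h
    obtain ⟨m1, m2, h1, h2⟩ := ha (b * h)
    obtain ⟨m3, m4, h3, h4⟩ := hb h
    refine ⟨m1 + m3, m2 + m4, ?_, ?_⟩
    · rw [zpow_add, mul_assoc, mul_assoc]
      exact (l.le _ h3).trans h1
    · rw [zpow_add, mul_assoc, mul_assoc]
      exact h2.trans (l.le _ h4)
  inv_mem' := by
    intro a ha h
    obtain ⟨m1, m2, h1, h2⟩ := ha (a⁻¹ * h)
    refine ⟨-m2, -m1, ?_, ?_⟩
    · simpa using l.le (z ^ (-m2)) h2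
    · simpa using l.le (z ^ (-m1)) h1

lemma self_mem_Dom (l : LI f) (z : H) : z ∈ Dom l z := fun h => ⟨1, 1, by simp, by simp⟩

lemma mem_Dom_of_sq (l : LI f) {z a : H} (ha : a * a ∈ Dom l z) : a ∈ Dom l z := by
  intro h
  obtain ⟨m1, m2, h1, h2⟩ := ha h
  rcases le_total (f h) (f (a * h)) with h3 | h3
  · have := l.le a h3
    rw [← mul_assoc] at this
    exact ⟨0, m2, by simpa using h3, this.trans h2⟩
  · have := l.le a h3
    rw [← mul_assoc] at this
    exact ⟨m1, 0, h1.trans this, by simpa using h3⟩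

lemma conj_mem_Dom (l : LI f) {z t a : H} (hc : Commute t z) (ha : a ∈ Dom l z) :
    t * a * t⁻¹ ∈ Dom l z := by
  intro h
  obtain ⟨m1, m2, h1, h2⟩ := ha (t⁻¹ * h)
  have h3 := l.le t h1
  have h4 := l.le t h2
  rw [← mul_assoc t (z ^ m1), (hc.zpow_right _).eq] at h3
  rw [← mul_assoc t (z ^ m2), (hc.zpow_right _).eq] at h4
  exact ⟨m1, m2, by simpa [mul_assoc] using h3, by simpa [mul_assoc] using h4⟩

def DomT (l : LI f) {z t : H} (hc : Commute t z) : Subgroup H where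
  carrier := {g | ∃ i : ℤ, g * t ^ (-i) ∈ Dom l z}
  one_mem' := ⟨0, by simp⟩
  mul_mem' := by
    rintro a b ⟨i, ha⟩ ⟨j, hb⟩
    refine ⟨i + j, ?_⟩
    have := (Dom l z).mul_mem ha (conj_mem_Dom l (hc.zpow_left i) hb)
    convert this using 1
    group
  inv_mem' := by
    rintro a ⟨i, ha⟩
    refine ⟨-i, ?_⟩
    have := conj_mem_Dom l (hc.zpow_left (-i)) ((Dom l z).inv_mem ha)
    convert this using 1
    group

end Dom

variable {Γ : Type*} [Group Γ]

structure Top (Γ : Type*) [Group Γ] extends Sys Γ where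
  τ : Γ
  ττ : τ * τ = 1
  τx : τ * x = x⁻¹ * τ
  τy : τ * y = y⁻¹ * τ
  τw : τ * w = w⁻¹ * τ
  τp : τ * p = p⁻¹ * τ
  τq : τ * q = q⁻¹ * τ
  τt : τ * t = t⁻¹ * τ
  ε : Γ →* ℤˣ
  εx : ε x = 1
  εy : ε y = 1
  εw : ε w = 1
  εp : ε p = 1
  εq : ε q = 1
  εt : ε t = 1
  ετ : ε τ = -1
  gen : ∀ g, g ∈ Subgroup.closure ({x, y, w, p, q, t, τ} : Set Γ)

namespace Top
variable (S : Top Γ)

def G : Subgroup Γ := Subgroup.closure S.gens

lemma τinv : S.τ⁻¹ = S.τ := inv_eq_of_mul_eq_one_right S.ττ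

lemma gens_spec {a : Γ} (ha : a ∈ S.gens) : S.τ * a = a⁻¹ * S.τ ∧ S.ε a = 1 := by
  simp only [Sys.gens, Set.mem_insert_iff, Set.mem_singleton_iff] at ha
  rcases ha with rfl | rfl | rfl | rfl | rfl | rfl
  exacts [⟨S.τx, S.εx⟩, ⟨S.τy, S.εy⟩, ⟨S.τw, S.εw⟩, ⟨S.τp, S.εp⟩, ⟨S.τq, S.εq⟩, ⟨S.τt, S.εt⟩]

lemma ε_of_mem {g : Γ} (hg : g ∈ S.G) : S.ε g = 1 := by
  induction hg using Subgroup.closure_induction with
  | mem a ha => exact (S.gens_spec ha).2
  | one => simp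
  | mul a b _ _ ha hb => simp [ha, hb]
  | inv a _ ha => simp [ha]

lemma conj_mem {g : Γ} (hg : g ∈ S.G) : S.τ * g * S.τ ∈ S.G := by
  induction hg using Subgroup.closure_induction with
  | mem a ha =>
    rw [(S.gens_spec ha).1, mul_assoc, S.ττ, mul_one]
    exact S.G.inv_mem (Subgroup.subset_closure ha)
  | one => simp [S.ττ]
  | mul a b _ _ ha hb =>
    have := S.G.mul_mem ha hb
    rwa [mul_assoc, ← mul_assoc S.τ (S.τ * b), ← mul_assoc S.τ S.τ, S.ττ, one_mul, ← mul_assoc,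
      mul_assoc S.τ a b] at this
  | inv a _ ha =>
    have := S.G.inv_mem ha
    simpa [S.τinv, mul_assoc] using this

lemma mem_or (g : Γ) : g ∈ S.G ∨ g * S.τ ∈ S.G := by
  have hτ : ∀ b : Γ, (b ∈ S.G ∨ b * S.τ ∈ S.G) → (S.τ * b ∈ S.G ∨ S.τ * b * S.τ ∈ S.G) := by
    rintro b (hb | hb)
    · exact Or.inr (S.conj_mem hb)
    · left
      have := S.conj_mem hb
      rwa [mul_assoc, mul_assoc, S.ττ, mul_one] at this
  have hG : ∀ a ∈ S.G, ∀ b : Γ, (b ∈ S.G ∨ b * S.τ ∈ S.G) → (a * b ∈ S.G ∨ a * b * S.τ ∈ S.G) := by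
    rintro a ha b (hb | hb)
    · exact Or.inl (S.G.mul_mem ha hb)
    · right; rw [mul_assoc]; exact S.G.mul_mem ha hb
  have hcase : ∀ a ∈ ({S.x, S.y, S.w, S.p, S.q, S.t, S.τ} : Set Γ), a ∈ S.G ∨ a = S.τ := by
    intro a ha
    by_cases h : a = S.τ
    · exact Or.inr h
    · left
      apply Subgroup.subset_closure
      simp only [Set.mem_insert_iff, Set.mem_singleton_iff, h, or_false] at ha
      simpa [Sys.gens] using ha
  induction S.gen g using Subgroup.closure_induction_left with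
  | one => exact Or.inl S.G.one_mem
  | mul_left a ha b _ ih =>
    rcases hcase a ha with h | rfl
    · exact hG a h b ih
    · exact hτ b ih
  | inv_mul_cancel a ha b _ ih =>
    rcases hcase a ha with h | rfl
    · exact hG _ (S.G.inv_mem h) b ih
    · rw [S.τinv]; exact hτ b ih

lemma mem_iff (g : Γ) : g ∈ S.G ↔ S.ε g = 1 := by
  refine ⟨S.ε_of_mem, fun h => ?_⟩
  rcases S.mem_or g with h1 | h1
  · exact h1
  · have := S.ε_of_mem h1
    rw [map_mul, h, S.ετ] at this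
    exact absurd this (by decide)

variable {c : Γ → Γ → Γ → ℤ} (hc : IsCO c)

def r : Lift hc := ⟨0, S.τ⟩

lemma τ_ne : S.τ ≠ 1 := by
  intro h
  have := S.ετ
  rw [h, map_one] at this
  exact absurd this (by decide)

lemma rr : S.r hc * S.r hc = Lift.T hc 1 := Lift.sq_T S.ττ S.τ_ne

def Inv (g : Lift hc) : Prop := S.r hc * g = g⁻¹ * S.r hc

variable {S hc}

lemma Inv.mul {g h : Lift hc} (hg : S.Inv hc g) (hh : S.Inv hc h) (hgh : Commute g h) :
    S.Inv hc (g * h) := by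
  unfold Inv at *
  rw [← mul_assoc, hg, mul_assoc, hh, ← mul_assoc, ← mul_inv_rev, hgh.eq]

lemma Inv.inv {g : Lift hc} (hg : S.Inv hc g) : S.Inv hc g⁻¹ := by
  unfold Inv at *
  rw [inv_swap hg, inv_inv]

lemma Inv.zpow {g : Lift hc} (hg : S.Inv hc g) (n : ℤ) : S.Inv hc (g ^ n) := by
  induction n using Int.induction_on with
  | zero => simp [Inv]
  | succ n ih => rw [zpow_add_one]; exact ih.mul hg (Commute.zpow_self g n)
  | pred n ih => rw [zpow_sub_one]; exact ih.mul hg.inv (Commute.zpow_self g _).inv_right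

lemma Inv.bounds {g : Lift hc} (hg : S.Inv hc g) :
    Lift.pos (S.r hc)⁻¹ < Lift.pos g ∧ Lift.pos g < Lift.pos (S.r hc) := by
  constructor
  · have e : g * S.r hc * (g * S.r hc) = Lift.T hc 1 := by
      rw [mul_assoc, ← mul_assoc (S.r hc), hg, ← S.rr]; group
    have := Lift.li.lt_of_sq (a := g * S.r hc) (g := (S.r hc)⁻¹) (by rw [e]; exact Lift.lt_T _)
    simpa using this
  · have e : S.r hc * g⁻¹ * (S.r hc * g⁻¹) = Lift.T hc 1 := by
      rw [mul_assoc, ← mul_assoc g⁻¹, ← hg, ← S.rr]; group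
    have := Lift.li.lt_of_sq (a := S.r hc * g⁻¹) (g := g) (by rw [e]; exact Lift.lt_T _)
    simpa using this

lemma Inv.bd {g : Lift hc} (hg : S.Inv hc g) : Lift.Bd g := by
  refine ⟨|((S.r hc)⁻¹).m| + |(S.r hc).m|, fun n => ?_⟩
  obtain ⟨h1, h2⟩ := (hg.zpow n).bounds
  rw [Lift.pos_lt] at h1 h2
  have := neg_abs_le ((S.r hc)⁻¹).m
  have := le_abs_self (S.r hc).m
  have := abs_nonneg ((S.r hc)⁻¹).m
  have := abs_nonneg (S.r hc).m
  omega

lemma exists_inv (hc : IsCO c) {a : Γ} (ha : a ∈ S.gens) : ∃ g : Lift hc, g.a = a ∧ S.Inv hc g := by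
  obtain ⟨h1, h2⟩ := S.gens_spec ha
  have e1 : a * S.τ * (a * S.τ) = 1 := by
    rw [mul_assoc, ← mul_assoc S.τ, h1, mul_assoc, S.ττ]; simp
  have e2 : a * S.τ ≠ 1 := by
    intro h
    have := congrArg S.ε h
    rw [map_mul, h2, S.ετ, map_one] at this
    exact absurd this (by decide)
  have e3 := Lift.sq_T (hc := hc) e1 e2
  refine ⟨⟨0, a * S.τ⟩ * (S.r hc)⁻¹, by simp [r], ?_⟩
  rw [← S.rr] at e3
  generalize (⟨0, a * S.τ⟩ : Lift hc) = i at e3
  have e4 : Commute (S.r hc * S.r hc) i := by rw [S.rr]; exact Lift.T_comm _ _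
  unfold Inv
  have e5 : i⁻¹ = i * (S.r hc * S.r hc)⁻¹ := by rw [← e3]; group
  rw [mul_inv_rev, inv_inv, e5]; group

theorem lifts (S : Top Γ) (hc : IsCO c) : ∃ K : Subgroup (Lift hc),
    (∀ g ∈ K, Lift.pos (S.r hc)⁻¹ < Lift.pos g ∧ Lift.pos g < Lift.pos (S.r hc)) ∧
    ∀ a ∈ S.G, ∃ g ∈ K, g.a = a := by
  obtain ⟨x, hx, ix⟩ := exists_inv hc (S := S) (a := S.x) (by simp [Sys.gens])
  obtain ⟨y, hy, iy⟩ := exists_inv hc (S := S) (a := S.y) (by simp [Sys.gens])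
  obtain ⟨w, hw, iw⟩ := exists_inv hc (S := S) (a := S.w) (by simp [Sys.gens])
  obtain ⟨p, hp, ip⟩ := exists_inv hc (S := S) (a := S.p) (by simp [Sys.gens])
  obtain ⟨q, hq, iq⟩ := exists_inv hc (S := S) (a := S.q) (by simp [Sys.gens])
  obtain ⟨t, ht, it⟩ := exists_inv hc (S := S) (a := S.t) (by simp [Sys.gens])
  have iz := ix.mul ix (Commute.refl _)
  have e1 : y * y = x * x :=
    (iy.mul iy (Commute.refl _)).bd.unique iz.bd (by simp [hx, hy, S.hx, S.hy])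
  have e2 : w * w = x * x :=
    (iw.mul iw (Commute.refl _)).bd.unique iz.bd (by simp [hx, hw, S.hx, S.hw])
  have hza : (x * x).a = S.z := by simp [hx, S.hx]
  generalize hz : x * x = z at iz e1 e2 hza
  have ctz : Commute t z := by
    have := (iz.bd.conj t).unique iz.bd (by
      simp only [Lift.mul_a, Lift.inv_a, ht, hza, (S.tA S.z_mem).eq]; simp)
    exact mul_inv_eq_iff_eq_mul.mp this
  have mz := self_mem_Dom Lift.li z
  have mx : x ∈ Dom Lift.li z := mem_Dom_of_sq _ (by rw [hz]; exact mz)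
  have my : y ∈ Dom Lift.li z := mem_Dom_of_sq _ (by rw [e1]; exact mz)
  have mw : w ∈ Dom Lift.li z := mem_Dom_of_sq _ (by rw [e2]; exact mz)
  have me : x * y * w * z⁻¹ * z⁻¹ ∈ Dom Lift.li z :=
    Subgroup.mul_mem _ (Subgroup.mul_mem _ (Subgroup.mul_mem _ (Subgroup.mul_mem _ mx my) mw)
      (Subgroup.inv_mem _ mz)) (Subgroup.inv_mem _ mz)
  have hea : (x * y * w * z⁻¹ * z⁻¹).a = S.e := by simp [hx, hy, hw, hza, Tri.e]
  generalize x * y * w * z⁻¹ * z⁻¹ = e at me hea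
  have key : ∀ p : Lift hc, S.Inv hc p → S.e * p.a = p.a⁻¹ * S.e → p ∈ Dom Lift.li z := by
    intro p ip h
    have h1 := (ip.bd.conj e).unique ip.bd.inv (by simp [hea, h])
    have h2 : p * e * (p * e) = e * e := by
      rw [mul_assoc, ← mul_assoc e, mul_inv_eq_iff_eq_mul.mp h1]; group
    have h3 : p * e ∈ Dom Lift.li z := mem_Dom_of_sq _ (by rw [h2]; exact Subgroup.mul_mem _ me me)
    simpa using Subgroup.mul_mem _ h3 (Subgroup.inv_mem _ me)
  have mp := key p ip (by rw [hp]; exact S.ep)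
  have mq := key q iq (by rw [hq]; exact S.eq')
  have incl : ∀ g ∈ Dom Lift.li z, g ∈ DomT Lift.li ctz := fun g hg => ⟨0, by simpa using hg⟩
  refine ⟨DomT Lift.li ctz, ?_, ?_⟩
  · rintro g ⟨i, hg⟩
    obtain ⟨m, m', h1, h2⟩ := hg (t ^ i)
    simp only [zpow_neg, inv_mul_cancel_right] at h1 h2
    exact ⟨((iz.zpow m).mul (it.zpow i) (ctz.symm.zpow_zpow _ _)).bounds.1.trans_le h1,
      h2.trans_lt ((iz.zpow m').mul (it.zpow i) (ctz.symm.zpow_zpow _ _)).bounds.2⟩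
  · intro a ha
    induction ha using Subgroup.closure_induction with
    | mem a ha =>
      simp only [Sys.gens, Set.mem_insert_iff, Set.mem_singleton_iff] at ha
      rcases ha with rfl | rfl | rfl | rfl | rfl | rfl
      exacts [⟨x, incl _ mx, hx⟩, ⟨y, incl _ my, hy⟩, ⟨w, incl _ mw, hw⟩, ⟨p, incl _ mp, hp⟩,
        ⟨q, incl _ mq, hq⟩, ⟨t, ⟨1, by simp⟩, ht⟩]
    | one => exact ⟨1, Subgroup.one_mem _, rfl⟩
    | mul a b _ _ ha hb =>
      obtain ⟨g, hg, rfl⟩ := ha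
      obtain ⟨h, hh, rfl⟩ := hb
      exact ⟨g * h, Subgroup.mul_mem _ hg hh, rfl⟩
    | inv a _ ha =>
      obtain ⟨g, hg, rfl⟩ := ha
      exact ⟨g⁻¹, Subgroup.inv_mem _ hg, rfl⟩

lemma pos_inj {g h : Lift hc} (e : Lift.pos g = Lift.pos h) : g = h := by
  simp only [Lift.pos, toLex_inj, Prod.mk.injEq] at e
  exact Lift.ext e.1 e.2

theorem A0 (S : Top Γ) (hc : IsCO c) {k g h : Γ} (hk : k ∈ S.G) (hg : g ∈ S.G) (hh : h ∈ S.G) :
    c S.τ (k * g) (k * h) = c S.τ g h := by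
  obtain ⟨K, hK, hl⟩ := S.lifts hc
  obtain ⟨k, hk', rfl⟩ := hl k hk
  obtain ⟨g, hg', rfl⟩ := hl g hg
  obtain ⟨h, hh', rfl⟩ := hl h hh
  have e : Lift.T hc 1 * (S.r hc)⁻¹ = S.r hc := by rw [← S.rr]; group
  have main : ∀ g ∈ K, ∀ h ∈ K, Lift.pos g < Lift.pos h → c S.τ g.a h.a = 1 := by
    intro g hg h hh hlt
    have := Lift.between (hK g hg).1 hlt (by rw [e]; exact (hK h hh).2)
    simpa [r, S.τinv] using this
  rcases lt_trichotomy (Lift.pos g) (Lift.pos h) with h1 | h1 | h1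
  · rw [main g hg' h hh' h1]
    exact main _ (K.mul_mem hk' hg') _ (K.mul_mem hk' hh') (Lift.li.lt k h1)
  · rw [pos_inj h1, hc.z23, hc.z23]
  · rw [hc.sw23, hc.sw23 S.τ h.a, main h hh' g hg' h1]
    have := main _ (K.mul_mem hk' hh') _ (K.mul_mem hk' hg') (Lift.li.lt k h1)
    simp only [Lift.mul_a] at this
    rw [this]

lemma ne_τ {g : Γ} (hg : g ∈ S.G) : g ≠ S.τ := by
  rintro rfl
  have := S.ε_of_mem hg
  rw [S.ετ] at this
  exact absurd this (by decide)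

/-- a circular order is determined by which elements of the index two subgroup are positive -/
theorem determined (S : Top Γ) {c' : Γ → Γ → Γ → ℤ} (hc : IsCO c) (hc' : IsCO c')
    (h : ∀ g ∈ S.G, c S.τ 1 g = 1 ↔ c' S.τ 1 g = 1) : c = c' := by
  have h1 : ∀ g ∈ S.G, c S.τ 1 g = c' S.τ 1 g := by
    intro g hg
    have a1 := h g hg
    have a2 := hc.val S.τ 1 g
    have a3 := hc'.val S.τ 1 g
    have a4 : c S.τ 1 g = 0 ↔ c' S.τ 1 g = 0 := by rw [hc.zero, hc'.zero]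
    omega
  have h2 : ∀ g ∈ S.G, ∀ h ∈ S.G, c S.τ g h = c' S.τ g h := by
    intro g hg h hh
    rw [← S.A0 hc (S.G.inv_mem hg) hg hh, ← S.A0 hc' (S.G.inv_mem hg) hg hh, inv_mul_cancel]
    exact h1 _ (S.G.mul_mem (S.G.inv_mem hg) hh)
  have h3 : ∀ a, ∀ g ∈ S.G, ∀ h ∈ S.G, c a g h = c' a g h := by
    intro a g hg h hh
    rcases S.mem_or a with ha | ha
    · have a1 := hc.coc S.τ a g h
      have a2 := hc'.coc S.τ a g h
      rw [h2 _ hg _ hh, h2 _ ha _ hh, h2 _ ha _ hg] at a1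
      omega
    · rw [← hc.inv (a * S.τ)⁻¹, ← hc'.inv (a * S.τ)⁻¹]
      have e : (a * S.τ)⁻¹ * a = S.τ := by rw [mul_inv_rev, S.τinv]; simp
      rw [e]
      exact h2 _ (S.G.mul_mem (S.G.inv_mem ha) hg) _ (S.G.mul_mem (S.G.inv_mem ha) hh)
  have h4 : ∀ a b d, S.ε b = S.ε d → c a b d = c' a b d := by
    intro a b d e
    rw [← hc.inv b⁻¹, ← hc'.inv b⁻¹, inv_mul_cancel]
    exact h3 _ _ S.G.one_mem _ ((S.mem_iff _).mpr (by simp [e]))
  funext a b d
  by_cases e1 : S.ε b = S.ε d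
  · exact h4 a b d e1
  by_cases e2 : S.ε a = S.ε b
  · rw [hc.rot d a b, hc'.rot d a b]
    exact h4 d a b e2
  · rw [← hc.rot a b d, ← hc'.rot a b d]
    apply h4
    rcases Int.units_eq_one_or (S.ε a) with a1 | a1 <;>
      rcases Int.units_eq_one_or (S.ε b) with a2 | a2 <;>
      rcases Int.units_eq_one_or (S.ε d) with a3 | a3 <;> simp_all

variable (S)

lemma xG : S.x ∈ S.G := Subgroup.subset_closure (by simp [Sys.gens])
lemma yG : S.y ∈ S.G := Subgroup.subset_closure (by simp [Sys.gens])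
lemma wG : S.w ∈ S.G := Subgroup.subset_closure (by simp [Sys.gens])
lemma pG : S.p ∈ S.G := Subgroup.subset_closure (by simp [Sys.gens])
lemma qG : S.q ∈ S.G := Subgroup.subset_closure (by simp [Sys.gens])
lemma tG : S.t ∈ S.G := Subgroup.subset_closure (by simp [Sys.gens])
lemma zG : S.z ∈ S.G := by rw [← S.hx]; exact S.G.mul_mem S.xG S.xG

def sub : Sys S.G where
  x := ⟨S.x, S.xG⟩
  y := ⟨S.y, S.yG⟩
  w := ⟨S.w, S.wG⟩
  z := ⟨S.z, S.zG⟩
  p := ⟨S.p, S.pG⟩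
  q := ⟨S.q, S.qG⟩
  t := ⟨S.t, S.tG⟩
  hx := Subtype.ext S.hx
  hy := Subtype.ext S.hy
  hw := Subtype.ext S.hw
  xp := Subtype.ext S.xp
  yp := Subtype.ext S.yp
  wp := Subtype.ext S.wp
  xq := Subtype.ext S.xq
  yq := Subtype.ext S.yq
  wq := Subtype.ext S.wq
  tx := Subtype.ext S.tx
  ty := Subtype.ext S.ty
  tw := Subtype.ext S.tw
  tp := Subtype.ext S.tp
  tq := Subtype.ext S.tq

lemma sub_gen (g : S.G) : g ∈ Subgroup.closure S.sub.gens := by
  obtain ⟨g, hg⟩ := g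
  induction hg using Subgroup.closure_induction with
  | mem a ha =>
    apply Subgroup.subset_closure
    simp only [Sys.gens, Set.mem_insert_iff, Set.mem_singleton_iff] at ha ⊢
    rcases ha with rfl | rfl | rfl | rfl | rfl | rfl <;> simp [sub]
  | one => exact Subgroup.one_mem _
  | mul a b _ _ ha hb => exact Subgroup.mul_mem _ ha hb
  | inv a _ ha => exact Subgroup.inv_mem _ ha

def F (hc : IsCO c) (g : S.G) : Cut hc S.τ := hc.ι S.τ g

lemma F_lt (hc : IsCO c) (g h : S.G) : S.F hc g < S.F hc h ↔ c S.τ g h = 1 := by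
  simp [F, IsCO.ι_lt, ne_τ g.2]

lemma F_li (hc : IsCO c) : LI (S.F hc) := by
  intro k g h
  rw [F_lt, F_lt]
  intro h1
  rw [← h1]
  exact S.A0 hc k.2 g.2 h.2

/-- the clopen piece of the space of circular orders that turns out to be countably infinite -/
def U : Set (Γ → Γ → Γ → ℤ) :=
  {c | IsCO c ∧ c S.τ 1 S.z = 1 ∧ c S.τ 1 S.e = 1 ∧ c S.τ 1 S.L.e = 1}

lemma good (hc : c ∈ S.U) : S.sub.Good (S.F hc.1) ∧ S.sub.L.Good (S.F hc.1) := by
  have h1 : S.F hc.1 1 < S.F hc.1 S.sub.e := (S.F_lt hc.1 _ _).mpr hc.2.2.1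
  refine ⟨⟨S.F_li _, (S.F_lt hc.1 _ _).mpr hc.2.1, h1⟩, ⟨S.F_li _, ?_,
    (S.F_lt hc.1 _ _).mpr hc.2.2.2⟩⟩
  have := (S.F_li hc.1).lt S.sub.e h1
  rw [mul_one] at this
  exact h1.trans this

theorem U_countable : S.U.Countable := by
  have : S.U ⊆ ⋃ d : Option ℤ × Bool, {c | ∃ hc : c ∈ S.U, S.sub.Ty (S.F hc.1) d} := by
    intro c hc
    obtain ⟨d, hd⟩ := Sys.classify (S.good hc).1 (S.good hc).2
    exact Set.mem_iUnion.mpr ⟨d, hc, hd⟩
  refine Set.Countable.mono this (Set.countable_iUnion fun d => Set.Subsingleton.countable ?_)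
  rintro c ⟨hc, h1⟩ c' ⟨hc', h2⟩
  apply S.determined hc.1 hc'.1
  intro g hg
  have := Sys.same (S.good hc).1 (S.good hc).2 (S.good hc').1 (S.good hc').2 h1 h2
    (S.sub_gen ⟨g, hg⟩)
  rwa [F_lt, F_lt] at this

end Top

/-- a positive cone on the kernel of a sign character -/
structure Cone (ε : Γ →* ℤˣ) (P : Γ → Prop) : Prop where
  mul : ∀ a b, P a → P b → P (a * b)
  asymm : ∀ a, P a → P a⁻¹ → False
  total : ∀ a, ε a = 1 → a ≠ 1 → P a ∨ P a⁻¹

namespace Cone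
variable {ε : Γ →* ℤˣ} {P : Γ → Prop}

open Classical in
noncomputable def sgn (P : Γ → Prop) (g : Γ) : ℤ := if P g then 1 else if P g⁻¹ then -1 else 0

open Classical in
noncomputable def s (ε : Γ →* ℤˣ) (P : Γ → Prop) (a b : Γ) : ℤ :=
  if ε a = ε b then sgn P (a⁻¹ * b) else if ε a = 1 then 1 else -1

noncomputable def co (ε : Γ →* ℤˣ) (P : Γ → Prop) (a b d : Γ) : ℤ :=
  s ε P a b + s ε P b d + s ε P d a

variable (h : Cone ε P)
include h

lemma sgn_inv (g : Γ) : sgn P g⁻¹ = - sgn P g := by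
  have := h.asymm g
  unfold sgn
  rw [inv_inv]
  split_ifs <;> simp_all

lemma sgn_one : sgn P 1 = 0 := by
  have := h.sgn_inv 1
  rw [inv_one] at this
  omega

lemma sgn_ne {g : Γ} (h1 : ε g = 1) (h2 : g ≠ 1) : sgn P g = 1 ∨ sgn P g = -1 := by
  have := h.total g h1 h2
  unfold sgn
  split_ifs <;> simp_all

lemma sgn_mul {a b : Γ} (h1 : sgn P a = 1) (h2 : sgn P b = 1) : sgn P (a * b) = 1 := by
  have := h.mul a b
  unfold sgn at *
  split_ifs at h1 h2 ⊢ <;> simp_all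

lemma sgn_mul' {a b : Γ} (h1 : sgn P a = -1) (h2 : sgn P b = -1) : sgn P (a * b) = -1 := by
  have := h.sgn_mul (a := b⁻¹) (b := a⁻¹) (by rw [h.sgn_inv]; omega) (by rw [h.sgn_inv]; omega)
  rw [← mul_inv_rev, h.sgn_inv] at this
  omega

lemma s_anti (a b : Γ) : s ε P b a = - s ε P a b := by
  unfold s
  by_cases e : ε a = ε b
  · rw [if_pos e, if_pos e.symm, ← h.sgn_inv]; simp
  · rw [if_neg e, if_neg (Ne.symm e)]
    rcases Int.units_eq_one_or (ε a) with a1 | a1 <;>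
      rcases Int.units_eq_one_or (ε b) with a2 | a2 <;> simp_all

lemma s_self (a : Γ) : s ε P a a = 0 := by
  have := h.s_anti a a
  omega

lemma s_ne {a b : Γ} (hab : a ≠ b) : s ε P a b = 1 ∨ s ε P a b = -1 := by
  unfold s
  split_ifs with e1 e2
  · exact h.sgn_ne (by simp [e1]) (fun e => hab (inv_mul_eq_one.mp e))
  · simp
  · simp

lemma s_trans {a b d : Γ} (h1 : s ε P a b = 1) (h2 : s ε P b d = 1) : s ε P a d = 1 := by
  have := h.sgn_mul (a := a⁻¹ * b) (b := b⁻¹ * d)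
  rw [mul_assoc, mul_inv_cancel_left] at this
  unfold s at *
  rcases Int.units_eq_one_or (ε a) with a1 | a1 <;>
    rcases Int.units_eq_one_or (ε b) with a2 | a2 <;>
    rcases Int.units_eq_one_or (ε d) with a3 | a3 <;> simp_all

theorem isCO : IsCO (co ε P) := by
  have key : ∀ a b d, a ≠ b → b ≠ d → a ≠ d → co ε P a b d = 1 ∨ co ε P a b d = -1 := by
    intro a b d h1 h2 h3
    have a1 := h.s_ne h1
    have a2 := h.s_ne h2
    have a3 := h.s_ne h3
    have a4 := h.s_trans (a := a) (b := b) (d := d)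
    have a5 := h.s_trans (a := d) (b := b) (d := a)
    rw [h.s_anti b d, h.s_anti a b] at a5
    unfold co
    rw [h.s_anti a d] at a5 ⊢
    omega
  have key0 : ∀ a b d, (a = b ∨ b = d ∨ a = d) → co ε P a b d = 0 := by
    rintro a b d (rfl | rfl | rfl) <;> unfold co
    · rw [h.s_self, h.s_anti a d]; omega
    · rw [h.s_self, h.s_anti a b]; omega
    · rw [h.s_self, h.s_anti a b]; omega
  refine ⟨fun a b d => ?_, fun a b d => ⟨fun e => ?_, key0 a b d⟩, fun a b d e => ?_,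
    fun g a b d => ?_⟩
  · by_cases e : a = b ∨ b = d ∨ a = d
    · exact Or.inl (key0 a b d e)
    · push Not at e
      exact Or.inr (key a b d e.1 e.2.1 e.2.2)
  · by_contra e'
    push Not at e'
    have := key a b d e'.1 e'.2.1 e'.2.2
    omega
  · unfold co
    rw [h.s_anti b e, h.s_anti a e, h.s_anti a d]
    omega
  · have e : ∀ a b : Γ, (g * a)⁻¹ * (g * b) = a⁻¹ * b := fun a b => by group
    unfold co s
    simp only [e, map_mul]
    rcases Int.units_eq_one_or (ε g) with a0 | a0 <;>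
      rcases Int.units_eq_one_or (ε a) with a1 | a1 <;>
      rcases Int.units_eq_one_or (ε b) with a2 | a2 <;>
      rcases Int.units_eq_one_or (ε d) with a3 | a3 <;> simp [a0, a1, a2, a3] <;> omega

lemma co_iff {τ g : Γ} (hτ : ε τ = -1) (hg : ε g = 1) : co ε P τ 1 g = 1 ↔ P g := by
  unfold co s sgn
  simp only [hτ, hg, map_one]
  simp
  split_ifs <;> simp_all

end Cone

end Pool.Agent.MP_cb5d7d_al
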