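import Pool.Agent.MP_cb5d7d_al.ModelE
import Pool.Agent.MP_cb5d7d_al.Top

/-! The concrete group and infinitely many circular orders in the clopen piece. -/

namespace Pool.Agent.MP_cb5d7d_al

def al (i : ℤ) (e : ℤˣ) : MulAut E := u ^ i * (if e = 1 then 1 else η)
def be (e : ℤˣ) : MulAut E := if e = 1 then 1 else θ

lemma u_neg (i : ℤ) : u ^ (-i) = u ^ i := by
  rw [zpow_neg, ← inv_zpow, inv_eq_of_mul_eq_one_right uu]

lemma al_mul (i i' : ℤ) (e e' : ℤˣ) : al (i + e * i') (e * e') = al i e * al i' e' := by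
  have h1 : η * u ^ i' = u ^ i' * η := (uη.symm.zpow_right i').eq
  unfold al
  rcases Int.units_eq_one_or e with rfl | rfl <;> rcases Int.units_eq_one_or e' with rfl | rfl
  · simp [zpow_add]
  · simp [zpow_add, mul_assoc]
  · simp only [Units.val_neg, Units.val_one, neg_mul, one_mul, zpow_add, u_neg, mul_one,
      if_neg (show (-1 : ℤˣ) ≠ 1 by decide), if_true, mul_assoc, h1]
  · simp only [Units.val_neg, Units.val_one, neg_mul, one_mul, zpow_add, u_neg, mul_one, neg_neg,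
      if_neg (show (-1 : ℤˣ) ≠ 1 by decide), if_true, mul_assoc]
    rw [← mul_assoc η, h1, mul_assoc, ηη, mul_one]

lemma be_mul (e e' : ℤˣ) : be (e * e') = be e * be e' := by
  unfold be
  rcases Int.units_eq_one_or e with rfl | rfl <;> rcases Int.units_eq_one_or e' with rfl | rfl <;>
    simp [θθ]

@[simp] lemma al_one (i : ℤ) : al i 1 = u ^ i := by simp [al]
@[simp] lemma be_one : be 1 = 1 := by simp [be]
@[simp] lemma al_neg (i : ℤ) : al i (-1) = u ^ i * η := by simp [al]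
@[simp] lemma be_neg : be (-1) = θ := by simp [be]

@[ext] structure W where
  c : E
  a : E
  i : ℤ
  e : ℤˣ

namespace W

instance : Mul W := ⟨fun g h => ⟨g.c * al g.i g.e h.c, g.a * be g.e h.a, g.i + g.e * h.i, g.e * h.e⟩⟩
instance : One W := ⟨⟨1, 1, 0, 1⟩⟩
instance : Inv W := ⟨fun g => ⟨al (-(g.e * g.i)) g.e g.c⁻¹, be g.e g.a⁻¹, -(g.e * g.i), g.e⟩⟩

@[simp] lemma mul_c (g h : W) : (g * h).c = g.c * al g.i g.e h.c := rfl
@[simp] lemma mul_a (g h : W) : (g * h).a = g.a * be g.e h.a := rfl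
@[simp] lemma mul_i (g h : W) : (g * h).i = g.i + g.e * h.i := rfl
@[simp] lemma mul_e (g h : W) : (g * h).e = g.e * h.e := rfl
@[simp] lemma one_c : (1 : W).c = 1 := rfl
@[simp] lemma one_a : (1 : W).a = 1 := rfl
@[simp] lemma one_i : (1 : W).i = 0 := rfl
@[simp] lemma one_e : (1 : W).e = 1 := rfl
@[simp] lemma inv_c (g : W) : g⁻¹.c = al (-(g.e * g.i)) g.e g.c⁻¹ := rfl
@[simp] lemma inv_a (g : W) : g⁻¹.a = be g.e g.a⁻¹ := rfl
@[simp] lemma inv_i (g : W) : g⁻¹.i = -(g.e * g.i) := rfl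
@[simp] lemma inv_e (g : W) : g⁻¹.e = g.e := rfl

instance : Group W := Group.ofLeftAxioms
  (fun g h k => by
    ext
    · simp [al_mul, mul_assoc]
    · simp [be_mul, mul_assoc]
    · simp [mul_add, mul_assoc, add_assoc]
    · simp [mul_assoc])
  (fun g => by ext <;> simp)
  (fun g => by ext <;> simp)

instance : Countable W :=
  Function.Injective.countable (f := fun g : W => (g.c, g.a, g.i, (g.e : ℤ))) (by
    intro g h e
    simp only [Prod.mk.injEq] at e
    exact W.ext e.1 e.2.1 e.2.2.1 (Units.ext e.2.2.2))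

def eH : W →* ℤˣ where
  toFun := W.e
  map_one' := rfl
  map_mul' _ _ := rfl

def X : W := ⟨TE.w⁻¹, TE.x, 0, 1⟩
def Y : W := ⟨TE.w⁻¹, TE.y, 0, 1⟩
def V : W := ⟨TE.w⁻¹, TE.w, 0, 1⟩
def Z : W := ⟨TE.z⁻¹, TE.z, 0, 1⟩
def P : W := ⟨TE.x * TE.w⁻¹, 1, 0, 1⟩
def Q : W := ⟨TE.y * TE.w⁻¹, 1, 0, 1⟩
def T : W := ⟨1, 1, 1, 1⟩
def R : W := ⟨1, 1, 0, -1⟩

def bal : Subgroup W where
  carrier := {g | deg g.c + deg g.a = 0}
  one_mem' := by simp
  mul_mem' := by
    intro g h hg hh
    simp only [Set.mem_ofPred_eq, mul_c, mul_a, deg_mul] at *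
    rcases Int.units_eq_one_or g.e with e | e <;> simp [e, deg_u_zpow, deg_η, deg_θ] <;> omega
  inv_mem' := by
    intro g hg
    simp only [Set.mem_ofPred_eq, inv_c, inv_a] at *
    rcases Int.units_eq_one_or g.e with e | e
    · rw [e, al_one, be_one, deg_u_zpow]; simp; omega
    · rw [e, al_neg, be_neg, MulAut.mul_apply, deg_u_zpow, deg_η, deg_θ]; simp; omega

end W

open W

def Gam : Subgroup W := Subgroup.closure {X, Y, V, P, Q, T, R}

lemma Gam_le : Gam ≤ bal := by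
  rw [Gam, Subgroup.closure_le]
  intro a ha
  simp only [Set.mem_insert_iff, Set.mem_singleton_iff] at ha
  rcases ha with rfl | rfl | rfl | rfl | rfl | rfl | rfl <;> simp [bal, X, Y, V, P, Q, T, R]

lemma wi_x : TE.w⁻¹ * TE.x = TE.w * TE.x⁻¹ := by
  rw [TE.winv, TE.xinv, mul_assoc, TE.ziw]
lemma wi_y : TE.w⁻¹ * TE.y = TE.w * TE.y⁻¹ := by
  rw [TE.winv, TE.yinv, mul_assoc, TE.ziw]
lemma wi_wi : TE.w⁻¹ * TE.w⁻¹ = TE.z⁻¹ := by rw [← mul_inv_rev, TE.hw]

lemma XX : X * X = Z := by ext <;> simp [X, Z, wi_wi, TE.hx]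
lemma YY : Y * Y = Z := by ext <;> simp [Y, Z, wi_wi, TE.hy]
lemma VV : V * V = Z := by ext <;> simp [V, Z, wi_wi, TE.hw]

lemma mX : X ∈ Gam := Subgroup.subset_closure (by simp)
lemma mY : Y ∈ Gam := Subgroup.subset_closure (by simp)
lemma mV : V ∈ Gam := Subgroup.subset_closure (by simp)
lemma mP : P ∈ Gam := Subgroup.subset_closure (by simp)
lemma mQ : Q ∈ Gam := Subgroup.subset_closure (by simp)
lemma mT : T ∈ Gam := Subgroup.subset_closure (by simp)
lemma mR : R ∈ Gam := Subgroup.subset_closure (by simp)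
lemma mZ : Z ∈ Gam := by rw [← XX]; exact Gam.mul_mem mX mX

def SS : Top Gam where
  x := ⟨X, mX⟩
  y := ⟨Y, mY⟩
  w := ⟨V, mV⟩
  z := ⟨Z, mZ⟩
  p := ⟨P, mP⟩
  q := ⟨Q, mQ⟩
  t := ⟨T, mT⟩
  τ := ⟨R, mR⟩
  hx := Subtype.ext XX
  hy := Subtype.ext YY
  hw := Subtype.ext VV
  xp := Subtype.ext (show X * P = P⁻¹ * X by ext <;> simp [X, P, ← mul_assoc, wi_x])
  yp := Subtype.ext (show Y * P = P⁻¹ * Y by ext <;> simp [Y, P, ← mul_assoc, wi_x])
  wp := Subtype.ext (show V * P = P⁻¹ * V by ext <;> simp [V, P, ← mul_assoc, wi_x])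
  xq := Subtype.ext (show X * Q = Q⁻¹ * X by ext <;> simp [X, Q, ← mul_assoc, wi_y])
  yq := Subtype.ext (show Y * Q = Q⁻¹ * Y by ext <;> simp [Y, Q, ← mul_assoc, wi_y])
  wq := Subtype.ext (show V * Q = Q⁻¹ * V by ext <;> simp [V, Q, ← mul_assoc, wi_y])
  tx := Subtype.ext (show T * X = X * T by ext <;> simp [X, T])
  ty := Subtype.ext (show T * Y = Y * T by ext <;> simp [Y, T])
  tw := Subtype.ext (show T * V = V * T by ext <;> simp [V, T])
  tp := Subtype.ext (show T * P = Q * T by ext <;> simp [P, Q, T])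
  tq := Subtype.ext (show T * Q = P * T by ext <;> simp [P, Q, T])
  ττ := Subtype.ext (show R * R = 1 by ext <;> simp [R])
  τx := Subtype.ext (show R * X = X⁻¹ * R by ext <;> simp [X, R])
  τy := Subtype.ext (show R * Y = Y⁻¹ * R by ext <;> simp [Y, R])
  τw := Subtype.ext (show R * V = V⁻¹ * R by ext <;> simp [V, R])
  τp := Subtype.ext (show R * P = P⁻¹ * R by ext <;> simp [P, R])
  τq := Subtype.ext (show R * Q = Q⁻¹ * R by ext <;> simp [Q, R])
  τt := Subtype.ext (show R * T = T⁻¹ * R by ext <;> simp [T, R])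
  ε := eH.comp Gam.subtype
  εx := rfl
  εy := rfl
  εw := rfl
  εp := rfl
  εq := rfl
  εt := rfl
  ετ := rfl
  gen := by
    rintro ⟨g, hg⟩
    induction hg using Subgroup.closure_induction with
    | mem a ha =>
      apply Subgroup.subset_closure
      simp only [Set.mem_insert_iff, Set.mem_singleton_iff] at ha ⊢
      rcases ha with rfl | rfl | rfl | rfl | rfl | rfl | rfl <;> simp
    | one => exact Subgroup.one_mem _
    | mul a b _ _ ha hb => exact Subgroup.mul_mem _ ha hb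
    | inv a _ ha => exact Subgroup.inv_mem _ ha

/-- above the whole cusp subgroup -/
def Big (a : E) : Prop := ∀ m : ℤ, fE (TE.e ^ m) < fE a

lemma Big.not_mem {a : E} (h : Big a) : a ∉ Subgroup.zpowers TE.e := by
  rintro ⟨m, rfl⟩
  exact lt_irrefl _ (h m)

lemma Big.pos {a : E} (h : Big a) : fE 1 < fE a := by simpa using h 0

lemma Big.mul {a b : E} (ha : Big a) (hb : Big b) : Big (a * b) := fun m => by
  have := fE_li.lt a hb.pos
  rw [mul_one] at this
  exact (ha m).trans this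

lemma Big.emul {a b : E} (hb : Big b) (ha : a ∈ Subgroup.zpowers TE.e) : Big (a * b) := by
  obtain ⟨k, rfl⟩ := ha
  intro m
  have := fE_li.lt (TE.e ^ k) (hb (m - k))
  rwa [← zpow_add, add_sub_cancel] at this

lemma big_of_pos {a : E} (h : a ∉ Subgroup.zpowers TE.e) (hp : fE 1 < fE a) : Big a := by
  intro m
  have h1 := fE_li.inv_neg hp
  have h2 := goodE.sep_neg (TE_top a⁻¹) (by simpa using h) (goodE.J_e m) h1
  simpa using fE_li.lt a h2

lemma Big.mule {a b : E} (ha : Big a) (hb : b ∈ Subgroup.zpowers TE.e) : Big (a * b) := by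
  have h1 : a * b ∉ Subgroup.zpowers TE.e := fun h =>
    ha.not_mem (by simpa using Subgroup.mul_mem _ h (Subgroup.inv_mem _ hb))
  obtain ⟨k, rfl⟩ := hb
  exact big_of_pos h1 (goodE.sep_pos (TE_top a) ha.not_mem (goodE.J_e k) ha.pos)

lemma pos_or {a : E} (h : a ≠ 1) : fE 1 < fE a ∨ fE 1 < fE a⁻¹ := by
  rcases lt_trichotomy (fE 1) (fE a) with h1 | h1 | h1
  · exact Or.inl h1
  · exact absurd (goodE.free (TE_top a) h1.symm) h
  · exact Or.inr (fE_li.inv_pos h1)

lemma big_z {m : ℤ} (hm : 0 < m) : Big (TE.z ^ m) := by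
  intro n
  have h1 := (goodE.J_e n 0).2
  have h2 := goodE.z_mono.monotone (show (1 : ℤ) ≤ m by omega)
  simp only [zpow_zero, one_mul, zpow_one] at h1 h2
  exact (h1.trans goodE.x_lt_z).trans_le h2

def pr (j : ℤ) (g : W) : E := g.a * TE.z ^ (j * g.i)

lemma pr_mul (j : ℤ) {g h : W} (hg : g.e = 1) : pr j (g * h) = pr j g * pr j h := by
  simp only [pr, mul_a, mul_i, hg, be_one, MulAut.one_apply, Units.val_one, one_mul, mul_add,
    zpow_add]
  rw [mul_assoc, mul_assoc, ← mul_assoc h.a, ← mul_assoc (TE.z ^ _),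
    ((TE.cA (TE_top h.a)).zpow_left _).eq]

lemma pr_inv (j : ℤ) {g : W} (hg : g.e = 1) : pr j g⁻¹ = (pr j g)⁻¹ := by
  rw [eq_inv_iff_mul_eq_one, ← pr_mul j (by simpa using hg)]
  simp [pr]

def PP (j : ℤ) (g : Gam) : Prop :=
  g.1.e = 1 ∧ (Big (pr j g.1) ∨ (pr j g.1 ∈ Subgroup.zpowers TE.e ∧
    (0 < g.1.i ∨ (g.1.i = 0 ∧ fE 1 < fE g.1.c))))

theorem cone (j : ℤ) : Cone SS.ε (PP j) where
  mul := by
    rintro ⟨g, hg⟩ ⟨h, hh⟩ ⟨e1, h1⟩ ⟨e2, h2⟩
    simp only at e1 e2 h1 h2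
    refine ⟨by simp [e1, e2], ?_⟩
    simp only [MulMemClass.mk_mul_mk, pr_mul j e1, mul_i, mul_c, e1, Units.val_one, one_mul]
    rcases h1 with h1 | ⟨h1, h3⟩ <;> rcases h2 with h2 | ⟨h2, h4⟩
    · exact Or.inl (h1.mul h2)
    · exact Or.inl (h1.mule h2)
    · exact Or.inl (h2.emul h1)
    · refine Or.inr ⟨Subgroup.mul_mem _ h1 h2, ?_⟩
      rcases h3 with h3 | ⟨h3, h5⟩ <;> rcases h4 with h4 | ⟨h4, h6⟩
      · left; omega
      · left; omega
      · left; omega
      · right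
        refine ⟨by omega, ?_⟩
        have := fE_li.lt g.c h6
        simp only [h3, al_one, zpow_zero, MulAut.one_apply]
        rw [mul_one] at this
        exact h5.trans this
  asymm := by
    rintro ⟨g, hg⟩ ⟨e1, h1⟩ ⟨e2, h2⟩
    simp only [InvMemClass.coe_inv, pr_inv j e1, inv_i, inv_c] at e1 h1 h2
    simp only [e1, Units.val_one, one_mul, al_one, inv_mem_iff] at h2
    rcases h1 with h1 | ⟨h1, h3⟩ <;> rcases h2 with h2 | ⟨h2, h4⟩
    · exact absurd (fE_li.inv_neg h1.pos) (not_lt.mpr h2.pos.le)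
    · exact h1.not_mem h2
    · exact h2.not_mem (Subgroup.inv_mem _ h1)
    · rcases h3 with h3 | ⟨h3, h5⟩ <;> rcases h4 with h4 | ⟨h4, h6⟩
      · omega
      · omega
      · omega
      · simp only [h3, neg_zero, zpow_zero, MulAut.one_apply] at h6
        exact absurd (fE_li.inv_neg h5) (not_lt.mpr h6.le)
  total := by
    rintro ⟨g, hg⟩ e1 hne
    have e1' : g.e = 1 := e1
    simp only [PP, InvMemClass.coe_inv, pr_inv j e1', inv_i, inv_c, inv_e, e1', true_and,
      Units.val_one, one_mul, al_one, inv_mem_iff]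
    by_cases h : pr j g ∈ Subgroup.zpowers TE.e
    · simp only [h, true_and]
      rcases lt_trichotomy g.i 0 with h1 | h1 | h1
      · right; right; left; omega
      · have hc : g.c ≠ 1 := by
          intro hc
          apply hne
          obtain ⟨k, hk⟩ := h
          have hb : deg g.c + deg g.a = 0 := Gam_le hg
          simp only [pr, h1, mul_zero, zpow_zero, mul_one] at hk
          rw [hc, ← hk] at hb
          simp only [deg_one, deg_zpow, deg_e] at hb
          have : k = 0 := by omega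
          rw [this, zpow_zero] at hk
          exact Subtype.ext (W.ext hc hk.symm h1 e1')
        rcases pos_or hc with h2 | h2
        · left; right; right; exact ⟨h1, h2⟩
        · right; right; right; simpa [h1] using h2
      · left; right; left; exact h1
    · have hne' : pr j g ≠ 1 := fun e => h (e ▸ Subgroup.one_mem _)
      rcases pos_or hne' with h2 | h2
      · left; left; exact big_of_pos h h2
      · right; left; exact big_of_pos (by simpa using h) h2

lemma e_val : (SS.e : W) = ⟨TE.w, TE.e, 0, 1⟩ := by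
  show X * Y * V * Z⁻¹ * Z⁻¹ = _
  ext <;> simp [X, Y, V, Z, Tri.e, ← TE.hw, mul_assoc]

lemma Le_val : (SS.L.e : W) = ⟨TE.e, TE.e⁻¹, 0, 1⟩ := by
  show P * (SS.e : W) * (Q * (SS.e : W)) * (SS.e : W) * ((SS.e : W) * (SS.e : W))⁻¹ *
    ((SS.e : W) * (SS.e : W))⁻¹ = _
  rw [e_val]
  ext
  · simp [P, Q, Tri.e, ← TE.hw, mul_assoc]
  · simp [P, Q, mul_assoc]
  · simp [P, Q]
  · simp [P, Q]

lemma w_pos : fE 1 < fE TE.w := by
  have := fE_li.lt_of_sq (a := TE.w) (g := 1) (by simpa [TE.hw] using goodE.hz)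
  simpa using this

theorem co_mem (j : ℤ) : Cone.co SS.ε (PP j) ∈ SS.U := by
  refine ⟨(cone j).isCO, ?_, ?_, ?_⟩
  · rw [(cone j).co_iff SS.ετ rfl]
    refine ⟨rfl, Or.inl ?_⟩
    have := big_z (m := 1) (by omega)
    simpa [pr, SS, Z] using this
  · have h : SS.ε SS.e = 1 := by show (SS.e : W).e = 1; rw [e_val]
    rw [(cone j).co_iff SS.ετ h]
    unfold PP
    rw [e_val]
    simp [pr, w_pos]
  · have h : SS.ε SS.L.e = 1 := by show (SS.L.e : W).e = 1; rw [Le_val]
    rw [(cone j).co_iff SS.ετ h]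
    unfold PP
    rw [Le_val]
    simp [pr, goodE.he]

lemma PP_test (j k : ℤ) : PP j (SS.z ^ (-k) * SS.t) ↔ k ≤ j := by
  have hz : ∀ n : ℤ, (Z ^ n).a = TE.z ^ n ∧ (Z ^ n).i = 0 ∧ (Z ^ n).e = 1 := by
    intro n
    induction n using Int.induction_on with
    | zero => simp
    | succ n ih =>
      rw [zpow_add_one, zpow_add_one, mul_a, mul_i, mul_e, ih.1, ih.2.1, ih.2.2]; simp [Z]
    | pred n ih =>
      rw [zpow_sub_one, zpow_sub_one, mul_a, mul_i, mul_e, ih.1, ih.2.1, ih.2.2]; simp [Z]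
  have e1 : ((SS.z ^ (-k) * SS.t : Gam) : W) = Z ^ (-k) * T := by simp [SS]
  have e2 : pr j (Z ^ (-k) * T) = TE.z ^ (j - k) := by
    simp only [pr, mul_a, mul_i, hz, T]
    simp only [be_one, MulAut.one_apply, mul_one, Units.val_one, zero_add]
    rw [← zpow_add]; congr 1; ring
  unfold PP
  rw [e1, e2]
  simp only [mul_e, mul_i, hz, T, mul_one, Units.val_one, zero_add, true_and, zero_lt_one,
    true_or, and_true]
  constructor
  · intro h
    by_contra hc
    have hb := big_z (m := k - j) (by omega)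
    have e3 : TE.z ^ (j - k) = (TE.z ^ (k - j))⁻¹ := by rw [← zpow_neg]; congr 1; ring
    rw [e3] at h
    rcases h with h | h
    · exact absurd (fE_li.inv_neg hb.pos) (not_lt.mpr h.pos.le)
    · exact hb.not_mem (by simpa using h)
  · intro h
    rcases h.lt_or_eq with h | rfl
    · exact Or.inl (big_z (by omega))
    · right; simp

theorem U_infinite : SS.U.Infinite := by
  refine Set.infinite_of_injective_forall_mem (f := fun j : ℤ => Cone.co SS.ε (PP j)) ?_ co_mem
  intro j j' h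
  have key : ∀ k, k ≤ j ↔ k ≤ j' := by
    intro k
    have hε : SS.ε (SS.z ^ (-k) * SS.t) = 1 := by
      rw [map_mul, map_zpow, SS.εt, SS.ε_of_mem SS.zG]; simp
    rw [← PP_test, ← PP_test, ← (cone j).co_iff SS.ετ hε, ← (cone j').co_iff SS.ετ hε]
    simp only at h
    rw [h]
  exact le_antisymm ((key j).mp le_rfl) ((key j').mpr le_rfl)

end Pool.Agent.MP_cb5d7d_al
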