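import Pool.Agent.MP_cb5d7d_al.Cusp

/-! The group `⟨x, y, w | x² = y² = w²⟩`, its action on the line and its symmetries. -/

namespace Pool.Agent.MP_cb5d7d_al

open Real

def rels : Set (FreeGroup (Fin 3)) :=
  {FreeGroup.of 1 * FreeGroup.of 1 * (FreeGroup.of 0 * FreeGroup.of 0)⁻¹,
   FreeGroup.of 2 * FreeGroup.of 2 * (FreeGroup.of 0 * FreeGroup.of 0)⁻¹}

abbrev E : Type := PresentedGroup rels

instance : Countable E := (PresentedGroup.mk_surjective rels).countable

def TE : Tri E where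
  x := PresentedGroup.of 0
  y := PresentedGroup.of 1
  w := PresentedGroup.of 2
  z := PresentedGroup.of 0 * PresentedGroup.of 0
  hx := rfl
  hy := PresentedGroup.mk_eq_mk_of_mul_inv_mem (rels := rels)
    (x := FreeGroup.of 1 * FreeGroup.of 1) (y := FreeGroup.of 0 * FreeGroup.of 0) (Or.inl rfl)
  hw := PresentedGroup.mk_eq_mk_of_mul_inv_mem (rels := rels)
    (x := FreeGroup.of 2 * FreeGroup.of 2) (y := FreeGroup.of 0 * FreeGroup.of 0) (Or.inr rfl)

lemma TE_top (g : E) : g ∈ TE.A := by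
  apply PresentedGroup.generated_by
  intro j
  fin_cases j
  exacts [TE.x_mem, TE.y_mem, TE.w_mem]

/-- the homomorphism out of `E` given by three elements with equal squares -/
def liftE {K : Type*} [Group K] (a b c : K) (h1 : b * b = a * a) (h2 : c * c = a * a) : E →* K :=
  PresentedGroup.toGroup (f := ![a, b, c]) (by
    rintro r (rfl | rfl) <;> simp [h1, h2])

@[simp] lemma liftE_x {K : Type*} [Group K] (a b c : K) (h1 h2) : liftE a b c h1 h2 TE.x = a :=
  PresentedGroup.toGroup.of _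
@[simp] lemma liftE_y {K : Type*} [Group K] (a b c : K) (h1 h2) : liftE a b c h1 h2 TE.y = b :=
  PresentedGroup.toGroup.of _
@[simp] lemma liftE_w {K : Type*} [Group K] (a b c : K) (h1 h2) : liftE a b c h1 h2 TE.w = c :=
  PresentedGroup.toGroup.of _

lemma homE_ext {K : Type*} [Group K] {φ ψ : E →* K} (hx : φ TE.x = ψ TE.x) (hy : φ TE.y = ψ TE.y)
    (hw : φ TE.w = ψ TE.w) : φ = ψ := by
  apply PresentedGroup.ext
  intro j
  fin_cases j
  exacts [hx, hy, hw]

noncomputable def hfun (t : ℝ) : ℝ := t + 3 / 4 * (cos t - 1)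

lemma hfun_mono : StrictMono hfun := by
  intro a b hab
  have h1 := abs_cos_sub_cos_le a b
  rw [abs_sub_comm a b, abs_of_pos (sub_pos.mpr hab)] at h1
  have := le_abs_self (cos a - cos b)
  unfold hfun
  linarith

lemma hfun_surj : Function.Surjective hfun := by
  apply Continuous.surjective (by unfold hfun; fun_prop)
  · apply Filter.tendsto_atTop_mono (f := fun t => t + (-2))
    · intro t
      have := neg_one_le_cos t
      unfold hfun; linarith
    · exact Filter.tendsto_atTop_add_const_right _ _ Filter.tendsto_id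
  · apply Filter.tendsto_atBot_mono (f := fun t => t)
    · intro t
      have := cos_le_one t
      unfold hfun; linarith
    · exact Filter.tendsto_id

noncomputable def hiso : ℝ ≃o ℝ := hfun_mono.orderIsoOfSurjective hfun hfun_surj

noncomputable def tr (a : ℝ) : ℝ ≃o ℝ := OrderIso.addLeft a

lemma tr_mul (a b : ℝ) : tr a * tr b = tr (a + b) := by
  ext t; simp [tr, add_assoc]

lemma tr_comm (a b : ℝ) : tr a * tr b = tr b * tr a := by rw [tr_mul, tr_mul, add_comm]

lemma hiso_tr : hiso * tr (2 * π) = tr (2 * π) * hiso := by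
  ext t
  show hfun (2 * π + t) = 2 * π + hfun t
  unfold hfun
  rw [add_comm (2 * π) t, cos_add_two_pi]; ring

noncomputable def x0 : ℝ ≃o ℝ := hiso * tr π * hiso⁻¹

lemma x0_sq : x0 * x0 = tr (2 * π) := by
  have : x0 * x0 = hiso * (tr π * tr π) * hiso⁻¹ := by unfold x0; group
  rw [this, tr_mul, ← two_mul, hiso_tr]; group

lemma x0_zero : x0 0 = π - 3 / 2 := by
  have h0 : hiso⁻¹ 0 = 0 := by
    have : hiso 0 = 0 := by show hfun 0 = 0; simp [hfun]
    conv_lhs => rw [← this]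
    exact hiso.symm_apply_apply 0
  show hiso (tr π (hiso⁻¹ 0)) = _
  rw [h0]
  show hfun (π + 0) = _
  simp [hfun]; ring

lemma conj_sq (a : ℝ) : (tr a * x0 * (tr a)⁻¹) * (tr a * x0 * (tr a)⁻¹) = x0 * x0 := by
  have : (tr a * x0 * (tr a)⁻¹) * (tr a * x0 * (tr a)⁻¹) = tr a * (x0 * x0) * (tr a)⁻¹ := by group
  rw [this, x0_sq, tr_comm]; group

lemma conj_apply (a : ℝ) : (tr a * x0 * (tr a)⁻¹) a = a + (π - 3 / 2) := by
  have h0 : (tr a)⁻¹ a = 0 := by
    have : tr a 0 = a := by simp [tr]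
    have h1 := (tr a).symm_apply_apply 0
    rw [this] at h1
    exact h1
  show tr a (x0 ((tr a)⁻¹ a)) = _
  rw [h0, x0_zero]; simp [tr]

noncomputable def ρ : E →* (ℝ ≃o ℝ) :=
  liftE x0 (tr (π - 3 / 2) * x0 * (tr (π - 3 / 2))⁻¹)
    (tr (π - 3 / 2 + (π - 3 / 2)) * x0 * (tr (π - 3 / 2 + (π - 3 / 2)))⁻¹) (conj_sq _) (conj_sq _)

noncomputable def fE (g : E) : ℝ := ρ g 0

lemma fE_li : LI fE := by
  intro k g h h1
  unfold fE at *
  rw [map_mul, map_mul]
  exact (ρ k).strictMono h1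

lemma fE_z : fE TE.z = 2 * π := by
  unfold fE
  rw [← TE.hx, map_mul, ρ, liftE_x, x0_sq]; simp [tr]

lemma fE_v3 : fE (TE.w * (TE.y * TE.x)) = π - 3 / 2 + (π - 3 / 2) + (π - 3 / 2) := by
  unfold fE
  rw [map_mul, map_mul, ρ, liftE_x, liftE_y, liftE_w]
  rw [RelIso.mul_apply _ (_ * x0), RelIso.mul_apply _ x0, x0_zero, conj_apply, conj_apply]

theorem goodE : TE.Good fE := by
  refine ⟨fE_li, ?_, ?_⟩
  · rw [fE_z]; simp [fE, pi_pos]
  · have h1 : fE (TE.w * (TE.y * TE.x)) < fE TE.z := by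
      rw [fE_z, fE_v3]
      have := pi_lt_four
      linarith
    have h2 := fE_li.lt (TE.e * TE.z⁻¹) h1
    have h3 := TE.e_mul_wyx TE.z⁻¹
    have h4 : TE.e * TE.z⁻¹ * (TE.w * (TE.y * TE.x)) = 1 := by
      rw [mul_assoc, TE.ziw, TE.ziy, Tri.zix', h3]; simp
    rw [h4] at h2
    simpa using h2

/-- an involutive endomorphism as an automorphism -/
def autOf (φ : E →* E) (h : φ.comp φ = MonoidHom.id E) : MulAut E :=
  MonoidHom.toMulEquiv φ φ h h

lemma autOf_apply (φ : E →* E) (h) (g : E) : autOf φ h g = φ g := by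
  simp [autOf]

def uH : E →* E := liftE TE.y TE.x TE.w (by rw [TE.hx, TE.hy]) (by rw [TE.hw, TE.hy])

def θH : E →* E := liftE TE.x⁻¹ TE.y⁻¹ TE.w⁻¹
  (by rw [← mul_inv_rev, ← mul_inv_rev, TE.hx, TE.hy])
  (by rw [← mul_inv_rev, ← mul_inv_rev, TE.hx, TE.hw])

def ηH : E →* E := liftE (TE.w * TE.x⁻¹ * TE.w⁻¹) (TE.w * TE.y⁻¹ * TE.w⁻¹) TE.w⁻¹
  (by
    have h : TE.y⁻¹ * TE.y⁻¹ = TE.x⁻¹ * TE.x⁻¹ := by
      rw [← mul_inv_rev, ← mul_inv_rev, TE.hx, TE.hy]
    calc _ = TE.w * (TE.y⁻¹ * TE.y⁻¹) * TE.w⁻¹ := by group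
      _ = _ := by rw [h]; group)
  (by
    have h : TE.w⁻¹ * TE.w⁻¹ = TE.x⁻¹ * TE.x⁻¹ := by
      rw [← mul_inv_rev, ← mul_inv_rev, TE.hx, TE.hw]
    calc _ = TE.w * (TE.w⁻¹ * TE.w⁻¹) * TE.w⁻¹ := by group
      _ = _ := by rw [h]; group)

def u : MulAut E := autOf uH (homE_ext (by simp [uH]) (by simp [uH]) (by simp [uH]))
def θ : MulAut E := autOf θH (homE_ext (by simp [θH]) (by simp [θH]) (by simp [θH]))
def η : MulAut E := autOf ηH
  (homE_ext (by simp [ηH, mul_assoc]) (by simp [ηH, mul_assoc]) (by simp [ηH]))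

@[simp] lemma u_x : u TE.x = TE.y := by
  simp [u, autOf_apply, uH]
@[simp] lemma u_y : u TE.y = TE.x := by
  simp [u, autOf_apply, uH]
@[simp] lemma u_w : u TE.w = TE.w := by
  simp [u, autOf_apply, uH]
@[simp] lemma θ_x : θ TE.x = TE.x⁻¹ := by
  simp [θ, autOf_apply, θH]
@[simp] lemma θ_y : θ TE.y = TE.y⁻¹ := by
  simp [θ, autOf_apply, θH]
@[simp] lemma θ_w : θ TE.w = TE.w⁻¹ := by
  simp [θ, autOf_apply, θH]
@[simp] lemma η_x : η TE.x = TE.w * TE.x⁻¹ * TE.w⁻¹ := by
  simp [η, autOf_apply, ηH]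
@[simp] lemma η_y : η TE.y = TE.w * TE.y⁻¹ * TE.w⁻¹ := by
  simp [η, autOf_apply, ηH]
@[simp] lemma η_w : η TE.w = TE.w⁻¹ := by
  simp [η, autOf_apply, ηH]

lemma aut_ext {φ ψ : MulAut E} (hx : φ TE.x = ψ TE.x) (hy : φ TE.y = ψ TE.y)
    (hw : φ TE.w = ψ TE.w) : φ = ψ := by
  have := homE_ext (φ := φ.toMonoidHom) (ψ := ψ.toMonoidHom) hx hy hw
  ext g
  exact DFunLike.congr_fun this g

lemma uu : u * u = 1 := aut_ext (by simp) (by simp) (by simp)
lemma θθ : θ * θ = 1 := aut_ext (by simp) (by simp) (by simp)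
lemma ηη : η * η = 1 := aut_ext (by simp [mul_assoc]) (by simp [mul_assoc]) (by simp)
lemma uη : Commute u η := aut_ext (by simp) (by simp) (by simp)

def degH : E →* Multiplicative ℤ :=
  liftE (Multiplicative.ofAdd 1) (Multiplicative.ofAdd 1) (Multiplicative.ofAdd 1) rfl rfl

def deg (g : E) : ℤ := (degH g).toAdd

@[simp] lemma deg_mul (a b : E) : deg (a * b) = deg a + deg b := by simp [deg]
@[simp] lemma deg_inv (a : E) : deg a⁻¹ = - deg a := by simp [deg]
@[simp] lemma deg_one : deg 1 = 0 := by simp [deg]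
@[simp] lemma deg_zpow (a : E) (n : ℤ) : deg (a ^ n) = n * deg a := by simp [deg]
@[simp] lemma deg_x : deg TE.x = 1 := by simp [deg, degH]
@[simp] lemma deg_y : deg TE.y = 1 := by simp [deg, degH]
@[simp] lemma deg_w : deg TE.w = 1 := by simp [deg, degH]
@[simp] lemma deg_z : deg TE.z = 2 := by rw [← TE.hx]; simp
@[simp] lemma deg_e : deg TE.e = -1 := by simp [Tri.e]

lemma deg_u (g : E) : deg (u g) = deg g := by
  have := homE_ext (φ := degH.comp u.toMonoidHom) (ψ := degH) (by simp [degH]) (by simp [degH])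
    (by simp [degH])
  exact congrArg Multiplicative.toAdd (DFunLike.congr_fun this g)

lemma deg_θ (g : E) : deg (θ g) = - deg g := by
  have := homE_ext (φ := degH.comp θ.toMonoidHom) (ψ := degH⁻¹) (by simp [degH]) (by simp [degH])
    (by simp [degH])
  exact congrArg Multiplicative.toAdd (DFunLike.congr_fun this g)

lemma deg_η (g : E) : deg (η g) = - deg g := by
  have := homE_ext (φ := degH.comp η.toMonoidHom) (ψ := degH⁻¹) (by simp [degH]) (by simp [degH])
    (by simp [degH])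
  exact congrArg Multiplicative.toAdd (DFunLike.congr_fun this g)

lemma deg_u_zpow (i : ℤ) (g : E) : deg ((u ^ i) g) = deg g := by
  induction i using Int.induction_on generalizing g with
  | zero => simp
  | succ i ih => rw [zpow_add_one, MulAut.mul_apply, ih, deg_u]
  | pred i ih =>
    rw [zpow_sub_one, inv_eq_of_mul_eq_one_right uu, MulAut.mul_apply, ih, deg_u]

end Pool.Agent.MP_cb5d7d_al
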