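import Mathlib

/-! Ping-pong for three elements with a common square, acting on a linear order. -/

namespace Pool.Agent.MP_cb5d7d_al

variable {H : Type*} [Group H] {Ω : Type*} [LinearOrder Ω]

/-- `f` records positions of group elements in a linear order, invariantly under left
multiplication. -/
def LI (f : H → Ω) : Prop := ∀ k g h, f g < f h → f (k * g) < f (k * h)

namespace LI
variable {f : H → Ω}

lemma lt_iff (hf : LI f) (k g h : H) : f (k * g) < f (k * h) ↔ f g < f h :=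
  ⟨fun h1 => by simpa using hf k⁻¹ _ _ h1, hf k g h⟩

lemma le_iff (hf : LI f) (k g h : H) : f (k * g) ≤ f (k * h) ↔ f g ≤ f h := by
  rw [← not_lt, ← not_lt, hf.lt_iff]

lemma le (hf : LI f) (k : H) {g h : H} (h1 : f g ≤ f h) : f (k * g) ≤ f (k * h) :=
  (hf.le_iff k g h).mpr h1

lemma lt (hf : LI f) (k : H) {g h : H} (h1 : f g < f h) : f (k * g) < f (k * h) :=
  hf k g h h1

lemma inv_neg (hf : LI f) {g : H} (h : f 1 < f g) : f g⁻¹ < f 1 := by
  simpa using hf.lt g⁻¹ h

lemma inv_pos (hf : LI f) {g : H} (h : f g < f 1) : f 1 < f g⁻¹ := by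
  simpa using hf.lt g⁻¹ h

lemma lt_of_sq (hf : LI f) {a g : H} (h : f g < f (a * a * g)) : f g < f (a * g) := by
  by_contra h1
  push Not at h1
  have h2 := hf.le a h1
  rw [← mul_assoc] at h2
  exact absurd (h2.trans h1) (not_le.mpr h)

lemma sq_lt (hf : LI f) {a g : H} (h : f g < f (a * a * g)) : f (a * g) < f (a * a * g) := by
  have := hf.lt a (hf.lt_of_sq h)
  rwa [← mul_assoc] at this

/-- the orbit of a point moved up by `a` is increasing -/
lemma zpow_strictMono (hf : LI f) {a g : H} (h : f g < f (a * g)) :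
    StrictMono fun n : ℤ => f (a ^ n * g) := by
  apply strictMono_int_of_lt_succ
  intro n
  have := hf.lt (a ^ n) h
  simpa [zpow_add, mul_assoc] using this

lemma zpow_strictAnti (hf : LI f) {a g : H} (h : f (a * g) < f g) :
    StrictAnti fun n : ℤ => f (a ^ n * g) := by
  apply strictAnti_int_of_succ_lt
  intro n
  have := hf.lt (a ^ n) h
  simpa [zpow_add, mul_assoc] using this

lemma zpow_strictMono' (hf : LI f) {a : H} (h : f 1 < f a) :
    StrictMono fun n : ℤ => f (a ^ n) := by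
  have := hf.zpow_strictMono (a := a) (g := 1) (by simpa using h)
  simpa using this

/-- locating a point between consecutive terms of an integer-indexed family -/
lemma exists_floor {φ : ℤ → Ω} {a : Ω} {m m' : ℤ} (hφ : Monotone φ) (h1 : φ m ≤ a)
    (h2 : a < φ m') : ∃ j, φ j ≤ a ∧ a < φ (j + 1) := by
  obtain ⟨j, hj, hmax⟩ := Int.exists_greatest_of_bdd (P := fun j => φ j ≤ a)
    ⟨m', fun j hj => by
      by_contra hc
      push Not at hc
      exact absurd ((hφ hc.le).trans hj) (not_le.mpr h2)⟩ ⟨m, h1⟩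
  refine ⟨j, hj, ?_⟩
  by_contra hc
  push Not at hc
  have := hmax _ hc
  omega

/-- an element commuting with `z` and above all its powers dominates the hull of the powers -/
lemma out_pos (hf : LI f) {u z g : H} (hc : Commute u z) (hu : ∀ N : ℤ, f (z ^ N) < f u)
    {m : ℤ} (hg : f (z ^ m) ≤ f g) {i : ℤ} (hi : 0 < i) : f 1 < f (u ^ i * g) := by
  have hu1 : f 1 < f u := by simpa using hu 0
  have h1 : f u ≤ f (u ^ i) := by
    simpa using (hf.zpow_strictMono' hu1).monotone (show (1 : ℤ) ≤ i by omega)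
  have h2 := hf.le (u ^ i) hg
  have h3 : u ^ i * z ^ m = z ^ m * u ^ i := (hc.zpow_zpow i m).eq
  have h4 := hf.lt (z ^ m) ((hu (-m)).trans_le h1)
  rw [h3] at h2
  simp only [zpow_neg, mul_inv_cancel] at h4
  exact h4.trans_le h2

lemma out_neg (hf : LI f) {u z g : H} (hu : ∀ N : ℤ, f (z ^ N) < f u)
    {m : ℤ} (hg : f g ≤ f (z ^ m)) {i : ℤ} (hi : i < 0) : f (u ^ i * g) < f 1 := by
  have hu1 : f 1 < f u := by simpa using hu 0
  have h1 : f u ≤ f (u ^ (-i)) := by
    simpa using (hf.zpow_strictMono' hu1).monotone (show (1 : ℤ) ≤ -i by omega)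
  have h2 := hf.lt (u ^ i) ((hg.trans_lt (hu m)).trans_le h1)
  simpa using h2

lemma out_inv (hf : LI f) {u z : H} (hc : Commute u z) (hu : ∀ N : ℤ, f u < f (z ^ N)) :
    ∀ N : ℤ, f (z ^ N) < f u⁻¹ := by
  intro N
  have h1 := hf.lt (u⁻¹ * z ^ N) (hu (-N))
  have h3 : z ^ N * u = u * z ^ N := (hc.zpow_right N).eq.symm
  rw [mul_assoc, h3] at h1
  simpa [mul_assoc] using h1

lemma out_cases (hf : LI f) {u z : H} (hz : f 1 < f z)
    (h : ¬ ∃ m m' : ℤ, f (z ^ m) ≤ f u ∧ f u ≤ f (z ^ m')) :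
    (∀ N : ℤ, f (z ^ N) < f u) ∨ (∀ N : ℤ, f u < f (z ^ N)) := by
  by_contra hc
  push Not at hc
  obtain ⟨⟨a, ha⟩, b, hb⟩ := hc
  exact h ⟨b, a, hb, ha⟩

end LI

/-- Three elements with common square `z`. -/
structure Tri (H : Type*) [Group H] where
  x : H
  y : H
  w : H
  z : H
  hx : x * x = z
  hy : y * y = z
  hw : w * w = z

namespace Tri
variable (T : Tri H)

def g : ℕ → H
  | 0 => T.x
  | 1 => T.y
  | _ => T.w

def v : ℕ → H
  | 0 => 1
  | 1 => T.x
  | 2 => T.y * T.x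
  | 3 => T.w * (T.y * T.x)
  | _ => T.z

/-- the boundary element -/
def e : H := T.x * T.y * T.w * T.z⁻¹ * T.z⁻¹

def A : Subgroup H := Subgroup.closure {T.x, T.y, T.w}

lemma gg (s : ℕ) : T.g s * T.g s = T.z := by
  match s with
  | 0 => exact T.hx
  | 1 => exact T.hy
  | _ + 2 => exact T.hw

lemma cg (s : ℕ) : Commute (T.g s) T.z := by
  rw [← T.gg s]; exact (Commute.refl _).mul_right (Commute.refl _)

lemma cx : Commute T.x T.z := T.cg 0
lemma cy : Commute T.y T.z := T.cg 1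
lemma cw : Commute T.w T.z := T.cg 2

lemma v_succ {s : ℕ} (hs : s < 3) : T.v (s + 1) = T.g s * T.v s := by
  interval_cases s <;> simp [v, g]

lemma cv (s : ℕ) : Commute (T.v s) T.z := by
  match s with
  | 0 => exact Commute.one_left _
  | 1 => exact T.cx
  | 2 => exact T.cy.mul_left T.cx
  | 3 => exact T.cw.mul_left (T.cy.mul_left T.cx)
  | _ + 4 => exact Commute.refl _

lemma x_mem : T.x ∈ T.A := Subgroup.subset_closure (by simp)
lemma y_mem : T.y ∈ T.A := Subgroup.subset_closure (by simp)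
lemma w_mem : T.w ∈ T.A := Subgroup.subset_closure (by simp)
lemma z_mem : T.z ∈ T.A := by rw [← T.hx]; exact T.A.mul_mem T.x_mem T.x_mem
lemma e_mem : T.e ∈ T.A :=
  T.A.mul_mem (T.A.mul_mem (T.A.mul_mem (T.A.mul_mem T.x_mem T.y_mem) T.w_mem)
    (T.A.inv_mem T.z_mem)) (T.A.inv_mem T.z_mem)

lemma comm_A {u : H} (hx : Commute u T.x) (hy : Commute u T.y) (hw : Commute u T.w) {a : H}
    (ha : a ∈ T.A) : Commute u a := by
  induction ha using Subgroup.closure_induction with
  | mem a ha =>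
    simp only [Set.mem_insert_iff, Set.mem_singleton_iff] at ha
    rcases ha with rfl | rfl | rfl <;> assumption
  | one => exact Commute.one_right _
  | mul a b _ _ ha hb => exact ha.mul_right hb
  | inv a _ ha => exact ha.inv_right

lemma cA {a : H} (ha : a ∈ T.A) : Commute T.z a := T.comm_A T.cx.symm T.cy.symm T.cw.symm ha

lemma xinv : T.x⁻¹ = T.z⁻¹ * T.x := by rw [← T.hx]; group
lemma yinv : T.y⁻¹ = T.z⁻¹ * T.y := by rw [← T.hy]; group
lemma winv : T.w⁻¹ = T.z⁻¹ * T.w := by rw [← T.hw]; group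

lemma zx (a : H) : T.z * (T.x * a) = T.x * (T.z * a) := by
  rw [← mul_assoc, ← T.cx.eq, mul_assoc]
lemma zy (a : H) : T.z * (T.y * a) = T.y * (T.z * a) := by
  rw [← mul_assoc, ← T.cy.eq, mul_assoc]
lemma zw (a : H) : T.z * (T.w * a) = T.w * (T.z * a) := by
  rw [← mul_assoc, ← T.cw.eq, mul_assoc]
lemma zix (a : H) : T.z⁻¹ * (T.x * a) = T.x * (T.z⁻¹ * a) := by
  rw [← mul_assoc, ← T.cx.inv_right.eq, mul_assoc]
lemma ziy (a : H) : T.z⁻¹ * (T.y * a) = T.y * (T.z⁻¹ * a) := by
  rw [← mul_assoc, ← T.cy.inv_right.eq, mul_assoc]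
lemma ziw (a : H) : T.z⁻¹ * (T.w * a) = T.w * (T.z⁻¹ * a) := by
  rw [← mul_assoc, ← T.cw.inv_right.eq, mul_assoc]
lemma xx (a : H) : T.x * (T.x * a) = T.z * a := by rw [← mul_assoc, T.hx]
lemma yy (a : H) : T.y * (T.y * a) = T.z * a := by rw [← mul_assoc, T.hy]
lemma ww (a : H) : T.w * (T.w * a) = T.z * a := by rw [← mul_assoc, T.hw]

lemma e_mul (a : H) : T.e * a = T.x * (T.y * (T.w * (T.z⁻¹ * (T.z⁻¹ * a)))) := by
  simp [e, mul_assoc]

lemma e_mul_wyx (a : H) : T.e * (T.w * (T.y * (T.x * a))) = T.z * a := by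
  rw [e_mul, ziw, ziw, ww, mul_inv_cancel_left, ziy, yy, mul_inv_cancel_left, xx]

lemma einv_mul (a : H) : T.e⁻¹ * a = T.w * (T.y * (T.x * (T.z⁻¹ * a))) := by
  rw [inv_mul_eq_iff_eq_mul, e_mul_wyx, mul_inv_cancel_left]

/-- reduced words: length, level, first letter (3 for the empty word), value -/
inductive Red : ℕ → ℤ → ℕ → H → Prop
  | base (m : ℤ) : Red 0 (m - 1) 3 (T.z ^ m)
  | up {n : ℕ} {k : ℤ} {s' : ℕ} {h : H} (s : ℕ) :
      s < s' → Red n k s' h → Red (n + 1) (k + 1) s (T.g s * h)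
  | down {n : ℕ} {k : ℤ} {s' : ℕ} {h : H} (s : ℕ) :
      s' < s → s < 3 → Red n k s' h → Red (n + 1) k s (T.g s * h)

variable {T}

lemma Red.le3 {n k s h} (r : T.Red n k s h) : s ≤ 3 := by
  induction r with
  | base m => rfl
  | up s h1 _ ih => omega
  | down s h1 h2 _ ih => omega

lemma Red.cast {n k s h k' h'} (r : T.Red n k s h) (e1 : k = k') (e2 : h = h') :
    T.Red n k' s h' := by subst e1 e2; exact r

lemma Red.zmul {n k s h} (r : T.Red n k s h) (m : ℤ) : T.Red n (k + m) s (T.z ^ m * h) := by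
  induction r with
  | base m' => exact (Red.base (T := T) (m + m')).cast (by ring) (by rw [zpow_add])
  | up s h1 _ ih =>
    refine (Red.up s h1 ih).cast (by ring) ?_
    rw [← mul_assoc, ((T.cg s).zpow_right m).eq, mul_assoc]
  | down s h1 h2 _ ih =>
    refine (Red.down s h1 h2 ih).cast rfl ?_
    rw [← mul_assoc, ((T.cg s).zpow_right m).eq, mul_assoc]

lemma Red.peel {n k s h} (r : T.Red n k s h) (hs : s < 3) :
    ∃ n' k' s' h', n = n' + 1 ∧ h = T.g s * h' ∧ T.Red n' k' s' h' ∧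
      ((s < s' ∧ k = k' + 1) ∨ (s' < s ∧ k = k')) := by
  cases r with
  | base m => omega
  | up s h1 r => exact ⟨_, _, _, _, rfl, rfl, r, Or.inl ⟨h1, rfl⟩⟩
  | down s h1 h2 r => exact ⟨_, _, _, _, rfl, rfl, r, Or.inr ⟨h1, rfl⟩⟩

lemma Red.three {n k h} (r : T.Red n k 3 h) : h = T.z ^ (k + 1) := by
  generalize hs : 3 = s at r
  cases r with
  | base m => simp
  | up s h1 r => have := r.le3; omega
  | down s h1 h2 r => omega

lemma Red.gen_mul {n k s' h} (r : T.Red n k s' h) {s : ℕ} (hs : s < 3) :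
    ∃ n k s', T.Red n k s' (T.g s * h) := by
  rcases lt_trichotomy s s' with h1 | rfl | h1
  · exact ⟨_, _, _, r.up s h1⟩
  · obtain ⟨n', k', s', h', -, rfl, r', -⟩ := r.peel hs
    refine ⟨_, _, _, (r'.zmul 1).cast rfl ?_⟩
    rw [← mul_assoc, T.gg, zpow_one]
  · exact ⟨_, _, _, r.down s h1 hs⟩

lemma exists_red {h : H} (hh : h ∈ T.A) : ∃ n k s, T.Red n k s h := by
  have hg : ∀ a ∈ ({T.x, T.y, T.w} : Set H), ∃ s < 3, a = T.g s := by
    intro a ha
    simp only [Set.mem_insert_iff, Set.mem_singleton_iff] at ha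
    rcases ha with rfl | rfl | rfl
    · exact ⟨0, by omega, rfl⟩
    · exact ⟨1, by omega, rfl⟩
    · exact ⟨2, by omega, rfl⟩
  induction hh using Subgroup.closure_induction_left with
  | one => exact ⟨_, _, _, (Red.base (T := T) 0).cast rfl (by simp)⟩
  | mul_left a ha b _ ih =>
    obtain ⟨s, hs, rfl⟩ := hg a ha
    obtain ⟨n, k, s', r⟩ := ih
    exact r.gen_mul hs
  | inv_mul_cancel a ha b _ ih =>
    obtain ⟨s, hs, rfl⟩ := hg a ha
    obtain ⟨n, k, s', r⟩ := ih
    obtain ⟨n, k, s', r⟩ := r.gen_mul hs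
    refine ⟨_, _, _, (r.zmul (-1)).cast rfl ?_⟩
    rw [← T.gg s]; group

/-- the two inequalities that pin the order down -/
structure Good (T : Tri H) (f : H → Ω) : Prop where
  li : LI f
  hz : f 1 < f T.z
  he : f 1 < f T.e

namespace Good
variable {f : H → Ω} (G : T.Good f)
include G

lemma lt_z {a : H} (ha : Commute a T.z) : f a < f (T.z * a) := by
  have := G.li.lt a G.hz
  rwa [mul_one, ha.eq] at this

lemma v_lt {s : ℕ} (hs : s < 4) : f (T.v s) < f (T.v (s + 1)) := by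
  by_cases h3 : s < 3
  · rw [T.v_succ h3]
    apply G.li.lt_of_sq
    rw [T.gg]
    exact G.lt_z (T.cv s)
  · obtain rfl : s = 3 := by omega
    have h1 := G.li.lt (T.z * T.e⁻¹) G.he
    have h2 : T.z * T.e⁻¹ * 1 = T.v 3 := by
      rw [mul_assoc, einv_mul, zw, zy, zx]; simp [v]
    rw [h2] at h1
    simpa [v] using h1

lemma v_le {s s' : ℕ} (h : s ≤ s') (hs : s' ≤ 4) : f (T.v s) ≤ f (T.v s') := by
  induction s' with
  | zero => obtain rfl : s = 0 := by omega
            rfl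
  | succ t ih =>
    rcases Nat.lt_or_eq_of_le h with h1 | rfl
    · exact (ih (by omega) (by omega)).trans (G.v_lt (by omega)).le
    · rfl

lemma z_mono : StrictMono fun n : ℤ => f (T.z ^ n) := G.li.zpow_strictMono' G.hz

lemma V_le {k k' : ℤ} {s s' : ℕ} (hs : s ≤ 4) (hs' : s' ≤ 4) (h : 4 * k + s ≤ 4 * k' + s') :
    f (T.z ^ k * T.v s) ≤ f (T.z ^ k' * T.v s') := by
  rcases lt_trichotomy k k' with h1 | rfl | h1
  · calc f (T.z ^ k * T.v s) ≤ f (T.z ^ k * T.v 4) := G.li.le _ (G.v_le hs le_rfl)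
      _ = f (T.z ^ (k + 1)) := by simp [v, zpow_add]
      _ ≤ f (T.z ^ k') := G.z_mono.monotone (by omega)
      _ = f (T.z ^ k' * T.v 0) := by simp [v]
      _ ≤ _ := G.li.le _ (G.v_le (by omega) hs')
  · exact G.li.le _ (G.v_le (by omega) hs')
  · obtain rfl : s = 0 := by omega
    obtain rfl : s' = 4 := by omega
    obtain rfl : k = k' + 1 := by omega
    simp [v, zpow_add]

lemma loc {n k s h} (r : T.Red n k s h) :
    f (T.z ^ k * T.v s) < f h ∧ f h ≤ f (T.z ^ k * T.v (s + 1)) := by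
  have key : ∀ (s : ℕ) (k : ℤ) (h : H), s < 3 → f (T.z ^ k * T.v (s + 1)) < f h →
      f h ≤ f (T.z ^ (k + 1) * T.v s) → f (T.z ^ (k + 1) * T.v s) < f (T.g s * h) ∧
        f (T.g s * h) ≤ f (T.z ^ (k + 1) * T.v (s + 1)) := by
    intro s k h hs h1 h2
    have e1 : T.g s * (T.z ^ k * T.v (s + 1)) = T.z ^ (k + 1) * T.v s := by
      rw [← mul_assoc, ((T.cg s).zpow_right k).eq, T.v_succ hs, mul_assoc, ← mul_assoc (T.g s),
        T.gg, zpow_add, zpow_one, mul_assoc]
    have e2 : T.g s * (T.z ^ (k + 1) * T.v s) = T.z ^ (k + 1) * T.v (s + 1) := by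
      rw [← mul_assoc, ((T.cg s).zpow_right (k + 1)).eq, T.v_succ hs, mul_assoc]
    rw [← e1, ← e2]
    exact ⟨G.li.lt _ h1, G.li.le _ h2⟩
  induction r with
  | base m =>
    have e1 : T.z ^ m = T.z ^ (m - 1) * T.v 4 := by
      simp only [v]; rw [← zpow_add_one]; simp
    constructor
    · rw [e1]; exact G.li.lt _ (G.v_lt (by omega))
    · rw [e1]
  | @up n k s' h s h1 r ih =>
    have := r.le3
    exact key s k h (by omega) ((G.V_le (by omega) (by omega) (by omega)).trans_lt ih.1)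
      (ih.2.trans (G.V_le (by omega) (by omega) (by omega)))
  | @down n k s' h s h1 h2 r ih =>
    have := key s (k - 1) h h2 ((G.V_le (by omega) (by omega) (by omega)).trans_lt ih.1)
      (ih.2.trans (G.V_le (by omega) (by omega) (by omega)))
    simpa using this

lemma idx_lt {n k s h n' k' s' h'} (r : T.Red n k s h) (r' : T.Red n' k' s' h')
    (hi : 4 * k + s < 4 * k' + s') : f h < f h' := by
  have := r.le3
  have := r'.le3
  exact ((G.loc r).2.trans (G.V_le (by omega) (by omega) (by omega))).trans_lt (G.loc r').1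

lemma idx_le {n k s h n' k' s' h'} (r : T.Red n k s h) (r' : T.Red n' k' s' h')
    (hi : f h ≤ f h') : 4 * k + s ≤ 4 * k' + s' := by
  by_contra hc
  exact absurd (G.idx_lt r' r (by omega)) (not_lt.mpr hi)

omit G in
lemma red_one : T.Red 0 (-1) 3 1 := (Red.base (T := T) 0).cast (by simp) (by simp)

lemma pos_iff {n k s h} (r : T.Red n k s h) : f 1 < f h ↔ 0 ≤ k := by
  have := r.le3
  constructor
  · intro h1
    have h2 := G.idx_le red_one r h1.le
    by_contra hc
    obtain rfl : k = -1 := by omega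
    obtain rfl : s = 3 := by omega
    rw [r.three] at h1
    simp at h1
  · intro h1
    exact G.idx_lt red_one r (by omega)

lemma free {h : H} (hh : h ∈ T.A) (h1 : f h = f 1) : h = 1 := by
  obtain ⟨n, k, s, r⟩ := exists_red hh
  have := r.le3
  have h2 := G.idx_le red_one r h1.ge
  have h3 := G.idx_le r red_one h1.le
  obtain rfl : k = -1 := by omega
  obtain rfl : s = 3 := by omega
  rw [r.three]; simp

lemma hull {h : H} (hh : h ∈ T.A) : ∃ m m' : ℤ, f (T.z ^ m) ≤ f h ∧ f h ≤ f (T.z ^ m') := by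
  obtain ⟨n, k, s, r⟩ := exists_red hh
  have := r.le3
  refine ⟨k, k + 1, ?_, ?_⟩
  · have := G.V_le (k := k) (k' := k) (s := 0) (s' := s) (by omega) (by omega) (by omega)
    simp only [v, mul_one] at this
    exact this.trans (G.loc r).1.le
  · have := G.V_le (k := k) (k' := k + 1) (s := s + 1) (s' := 0) (by omega) (by omega) (by omega)
    simp only [v, mul_one] at this
    exact (G.loc r).2.trans this

end Good

lemma same_pos {Ω' : Type*} [LinearOrder Ω'] {f : H → Ω} {f' : H → Ω'} (G : T.Good f)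
    (G' : T.Good f') {h : H} (hh : h ∈ T.A) : f 1 < f h ↔ f' 1 < f' h := by
  obtain ⟨n, k, s, r⟩ := exists_red hh
  rw [G.pos_iff r, G'.pos_iff r]

end Tri

end Pool.Agent.MP_cb5d7d_al
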