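import Pool.Agent.MP_cb5d7d_al.Cusp

/-! Two nested triangle groups and a twisting element: only countably many orders. -/

namespace Pool.Agent.MP_cb5d7d_al

variable {H : Type*} [Group H] {Ω : Type*} [LinearOrder Ω]

structure Sys (H : Type*) [Group H] extends Tri H where
  p : H
  q : H
  t : H
  xp : x * p = p⁻¹ * x
  yp : y * p = p⁻¹ * y
  wp : w * p = p⁻¹ * w
  xq : x * q = q⁻¹ * x
  yq : y * q = q⁻¹ * y
  wq : w * q = q⁻¹ * w
  tx : t * x = x * t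
  ty : t * y = y * t
  tw : t * w = w * t
  tp : t * p = q * t
  tq : t * q = p * t

lemma inv_swap {a p : H} (h : a * p = p⁻¹ * a) : a * p⁻¹ = p * a := by
  have : a = p * a * p := by rw [mul_assoc, h]; group
  calc a * p⁻¹ = p * a * p * p⁻¹ := by rw [← this]
    _ = p * a := by group

lemma Tri.e_inverts (T : Tri H) {p : H} (hx : T.x * p = p⁻¹ * T.x) (hy : T.y * p = p⁻¹ * T.y)
    (hw : T.w * p = p⁻¹ * T.w) : Commute T.z p ∧ T.e * p = p⁻¹ * T.e := by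
  have hz : Commute T.z p := by
    show T.z * p = p * T.z
    rw [← T.hx, mul_assoc, hx, ← mul_assoc, inv_swap hx, mul_assoc]
  refine ⟨hz, ?_⟩
  have h1 : T.z⁻¹ * (T.z⁻¹ * p) = p * (T.z⁻¹ * T.z⁻¹) := by
    rw [← mul_assoc, (hz.inv_left.mul_left hz.inv_left).eq]
  rw [T.e_mul, h1, ← mul_assoc T.w, hw, mul_assoc, ← mul_assoc T.y, inv_swap hy, mul_assoc,
    ← mul_assoc T.x, hx]
  simp [Tri.e, mul_assoc]

namespace Sys
variable (S : Sys H)

lemma zp : Commute S.z S.p := (S.toTri.e_inverts S.xp S.yp S.wp).1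
lemma zq : Commute S.z S.q := (S.toTri.e_inverts S.xq S.yq S.wq).1
lemma ep : S.e * S.p = S.p⁻¹ * S.e := (S.toTri.e_inverts S.xp S.yp S.wp).2
lemma eq' : S.e * S.q = S.q⁻¹ * S.e := (S.toTri.e_inverts S.xq S.yq S.wq).2

/-- the lower triangle group -/
def L : Tri H where
  x := S.p * S.e
  y := S.q * S.e
  w := S.e
  z := S.e * S.e
  hx := by rw [mul_assoc, ← mul_assoc S.e, S.ep]; group
  hy := by rw [mul_assoc, ← mul_assoc S.e, S.eq']; group
  hw := rfl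

def N : Subgroup H := Subgroup.closure {S.p, S.q}

def gens : Set H := {S.x, S.y, S.w, S.p, S.q, S.t}

lemma p_mem : S.p ∈ S.N := Subgroup.subset_closure (by simp)
lemma q_mem : S.q ∈ S.N := Subgroup.subset_closure (by simp)

lemma e_memL : S.e ∈ S.L.A := S.L.w_mem

lemma N_le : S.N ≤ S.L.A := by
  rw [N, Subgroup.closure_le]
  intro a ha
  simp only [Set.mem_insert_iff, Set.mem_singleton_iff] at ha
  rcases ha with rfl | rfl
  · have := S.L.A.mul_mem S.L.x_mem (S.L.A.inv_mem S.e_memL)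
    simpa [L] using this
  · have := S.L.A.mul_mem S.L.y_mem (S.L.A.inv_mem S.e_memL)
    simpa [L] using this

lemma conj_mem {g : H} (hp : g * S.p * g⁻¹ ∈ S.N) (hq : g * S.q * g⁻¹ ∈ S.N) {n : H}
    (hn : n ∈ S.N) : g * n * g⁻¹ ∈ S.N := by
  induction hn using Subgroup.closure_induction with
  | mem a ha =>
    simp only [Set.mem_insert_iff, Set.mem_singleton_iff] at ha
    rcases ha with rfl | rfl <;> assumption
  | one => simp
  | mul a b _ _ ha hb =>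
    have := S.N.mul_mem ha hb
    simpa [mul_assoc] using this
  | inv a _ ha =>
    have := S.N.inv_mem ha
    simpa [mul_assoc] using this

lemma conj_inv {g : H} (hp : g * S.p = S.p⁻¹ * g) (hq : g * S.q = S.q⁻¹ * g) {n : H}
    (hn : n ∈ S.N) : g * n * g⁻¹ ∈ S.N ∧ g⁻¹ * n * g ∈ S.N := by
  constructor
  · apply S.conj_mem _ _ hn
    · rw [hp]; simpa using S.p_mem
    · rw [hq]; simpa using S.q_mem
  · have := S.conj_mem (g := g⁻¹) ?_ ?_ hn
    · simpa using this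
    · rw [inv_inv, mul_assoc, ← inv_swap hp]; simpa using S.p_mem
    · rw [inv_inv, mul_assoc, ← inv_swap hq]; simpa using S.q_mem

lemma conj_t {n : H} (hn : n ∈ S.N) : S.t * n * S.t⁻¹ ∈ S.N ∧ S.t⁻¹ * n * S.t ∈ S.N := by
  constructor
  · apply S.conj_mem _ _ hn
    · rw [S.tp]; simpa using S.q_mem
    · rw [S.tq]; simpa using S.p_mem
  · have := S.conj_mem (g := S.t⁻¹) ?_ ?_ hn
    · simpa using this
    · rw [inv_inv, mul_assoc, ← S.tq]; simpa using S.q_mem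
    · rw [inv_inv, mul_assoc, ← S.tp]; simpa using S.p_mem

lemma tA {a : H} (ha : a ∈ S.A) : Commute S.t a := S.comm_A S.tx S.ty S.tw ha

lemma normal_form {g : H} (hg : g ∈ Subgroup.closure S.gens) :
    ∃ a ∈ S.A, ∃ i : ℤ, ∃ n ∈ S.N, g = a * S.t ^ i * n := by
  have stepA : ∀ s ∈ S.A, (∀ n ∈ S.N, s⁻¹ * n * s ∈ S.N) → ∀ g : H,
      (∃ a ∈ S.A, ∃ i : ℤ, ∃ n ∈ S.N, g = a * S.t ^ i * n) →
      ∃ a ∈ S.A, ∃ i : ℤ, ∃ n ∈ S.N, g * s = a * S.t ^ i * n := by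
    rintro s hs hc g ⟨a, ha, i, n, hn, rfl⟩
    refine ⟨a * s, S.A.mul_mem ha hs, i, _, hc n hn, ?_⟩
    rw [mul_assoc a s, ← ((S.tA hs).zpow_left i).eq]; group
  have stepN : ∀ s ∈ S.N, ∀ g : H,
      (∃ a ∈ S.A, ∃ i : ℤ, ∃ n ∈ S.N, g = a * S.t ^ i * n) →
      ∃ a ∈ S.A, ∃ i : ℤ, ∃ n ∈ S.N, g * s = a * S.t ^ i * n := by
    rintro s hs g ⟨a, ha, i, n, hn, rfl⟩
    exact ⟨a, ha, i, _, S.N.mul_mem hn hs, by group⟩
  induction hg using Subgroup.closure_induction_right with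
  | one => exact ⟨1, S.A.one_mem, 0, 1, S.N.one_mem, by simp⟩
  | mul_right g _ s hs ih =>
    simp only [gens, Set.mem_insert_iff, Set.mem_singleton_iff] at hs
    rcases hs with rfl | rfl | rfl | rfl | rfl | rfl
    · exact stepA _ S.x_mem (fun n hn => (S.conj_inv S.xp S.xq hn).2) g ih
    · exact stepA _ S.y_mem (fun n hn => (S.conj_inv S.yp S.yq hn).2) g ih
    · exact stepA _ S.w_mem (fun n hn => (S.conj_inv S.wp S.wq hn).2) g ih
    · exact stepN _ S.p_mem g ih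
    · exact stepN _ S.q_mem g ih
    · obtain ⟨a, ha, i, n, hn, rfl⟩ := ih
      exact ⟨a, ha, i + 1, _, (S.conj_t hn).2, by group⟩
  | mul_inv_cancel g _ s hs ih =>
    simp only [gens, Set.mem_insert_iff, Set.mem_singleton_iff] at hs
    rcases hs with rfl | rfl | rfl | rfl | rfl | rfl
    · exact stepA _ (S.A.inv_mem S.x_mem)
        (fun n hn => by simpa using (S.conj_inv S.xp S.xq hn).1) g ih
    · exact stepA _ (S.A.inv_mem S.y_mem)
        (fun n hn => by simpa using (S.conj_inv S.yp S.yq hn).1) g ih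
    · exact stepA _ (S.A.inv_mem S.w_mem)
        (fun n hn => by simpa using (S.conj_inv S.wp S.wq hn).1) g ih
    · exact stepN _ (S.N.inv_mem S.p_mem) g ih
    · exact stepN _ (S.N.inv_mem S.q_mem) g ih
    · obtain ⟨a, ha, i, n, hn, rfl⟩ := ih
      exact ⟨a, ha, i - 1, _, (S.conj_t hn).1, by group⟩

/-- the countably many possible positions of `t` -/
def Ty (f : H → Ω) : Option ℤ × Bool → Prop
  | (none, true) => ∀ N : ℤ, f (S.z ^ N) < f S.t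
  | (none, false) => ∀ N : ℤ, f S.t < f (S.z ^ N)
  | (some j, true) => S.J f (S.z ^ (-j) * S.t) ∧ ∀ N : ℤ, f (S.L.z ^ N) < f (S.z ^ (-j) * S.t)
  | (some j, false) => S.J f (S.z ^ (-j) * S.t) ∧ ∀ N : ℤ, f (S.z ^ (-j) * S.t) < f (S.L.z ^ N)

lemma ux (j : ℤ) : Commute (S.z ^ (-j) * S.t) S.x :=
  (S.cx.symm.zpow_left _).mul_left S.tx
lemma uy (j : ℤ) : Commute (S.z ^ (-j) * S.t) S.y :=
  (S.cy.symm.zpow_left _).mul_left S.ty
lemma uw (j : ℤ) : Commute (S.z ^ (-j) * S.t) S.w :=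
  (S.cw.symm.zpow_left _).mul_left S.tw
lemma ue (j : ℤ) : Commute (S.z ^ (-j) * S.t) S.e :=
  S.comm_A (S.ux j) (S.uy j) (S.uw j) S.e_mem
lemma uLz (j : ℤ) : Commute (S.z ^ (-j) * S.t) S.L.z := (S.ue j).mul_right (S.ue j)

variable {S} {f : H → Ω}

lemma classify (G : S.Good f) (G' : S.L.Good f) : ∃ d, S.Ty f d := by
  by_cases h : ∃ m m' : ℤ, f (S.z ^ m) ≤ f S.t ∧ f S.t ≤ f (S.z ^ m')
  · obtain ⟨m, m', h1, h2⟩ := h
    obtain ⟨j, hj⟩ := G.cent S.tx S.ty S.tw h1 h2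
    have e1 : S.z ^ (-j) * S.t * S.L.x = S.L.y * (S.z ^ (-j) * S.t) := by
      show S.z ^ (-j) * S.t * (S.p * S.e) = S.q * S.e * (S.z ^ (-j) * S.t)
      rw [mul_assoc S.q, ← (S.ue j).eq, ← mul_assoc, ← mul_assoc, ← mul_assoc,
        ← (S.zq.zpow_left _).eq, mul_assoc _ S.t, S.tp, mul_assoc _ S.q]
    have e2 : S.z ^ (-j) * S.t * S.L.y = S.L.x * (S.z ^ (-j) * S.t) := by
      show S.z ^ (-j) * S.t * (S.q * S.e) = S.p * S.e * (S.z ^ (-j) * S.t)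
      rw [mul_assoc S.p, ← (S.ue j).eq, ← mul_assoc, ← mul_assoc, ← mul_assoc,
        ← (S.zp.zpow_left _).eq, mul_assoc _ S.t, S.tq, mul_assoc _ S.p]
    have h3 := G'.twist e1 e2 (S.ue j).eq
    rcases G.li.out_cases G'.hz h3 with h4 | h4
    · exact ⟨(some j, true), hj, h4⟩
    · exact ⟨(some j, false), hj, h4⟩
  · rcases G.li.out_cases G.hz h with h4 | h4
    · exact ⟨(none, true), h4⟩
    · exact ⟨(none, false), h4⟩

lemma Lz_zpow (m : ℤ) : S.L.z ^ m = S.e ^ (2 * m) := by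
  show (S.e * S.e) ^ m = _
  rw [zpow_mul, zpow_two]

lemma J_uc (G : S.Good f) (G' : S.L.Good f) {u c : H} (hc : Commute u S.e) (hu : S.J f u)
    (hcL : c ∈ S.L.A) : S.J f (u * c) := by
  obtain ⟨m, m', h1, h2⟩ := G'.hull hcL
  rw [Lz_zpow] at h1 h2
  have h3 := G.li.le u h1
  have h4 := G.li.le u h2
  rw [(hc.zpow_right _).eq] at h3 h4
  intro n
  exact ⟨(G.J_emul hu _ n).1.trans_le h3, h4.trans_lt (G.J_emul hu _ n).2⟩

lemma hull_an (G : S.Good f) (G' : S.L.Good f) {a c : H} (ha : a ∈ S.A) (hcL : c ∈ S.L.A) :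
    ∃ m m' : ℤ, f (S.z ^ m) ≤ f (a * c) ∧ f (a * c) ≤ f (S.z ^ m') := by
  obtain ⟨m, m', h1, h2⟩ := G'.hull hcL
  rw [Lz_zpow] at h1 h2
  obtain ⟨k, -, h3, -⟩ := G.hull (S.A.mul_mem ha (S.A.zpow_mem S.e_mem (2 * m)))
  obtain ⟨-, k', -, h4⟩ := G.hull (S.A.mul_mem ha (S.A.zpow_mem S.e_mem (2 * m')))
  exact ⟨k, k', h3.trans (G.li.le a h1), (G.li.le a h2).trans h4⟩

variable {Ω' : Type*} [LinearOrder Ω'] {f' : H → Ω'}

lemma same_out (l : LI f) (l' : LI f') {u z g : H} (hc : Commute u z)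
    (hu : ∀ N : ℤ, f (z ^ N) < f u) (hu' : ∀ N : ℤ, f' (z ^ N) < f' u)
    (hg : ∃ m m' : ℤ, f (z ^ m) ≤ f g ∧ f g ≤ f (z ^ m'))
    (hg' : ∃ m m' : ℤ, f' (z ^ m) ≤ f' g ∧ f' g ≤ f' (z ^ m'))
    (h0 : f 1 < f g ↔ f' 1 < f' g) (i : ℤ) : f 1 < f (u ^ i * g) ↔ f' 1 < f' (u ^ i * g) := by
  obtain ⟨m1, m2, a1, a2⟩ := hg
  obtain ⟨m3, m4, a3, a4⟩ := hg'
  rcases lt_trichotomy i 0 with hi | rfl | hi
  · exact iff_of_false (not_lt.mpr (l.out_neg hu a2 hi).le) (not_lt.mpr (l'.out_neg hu' a4 hi).le)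
  · simpa using h0
  · exact iff_of_true (l.out_pos hc hu a1 hi) (l'.out_pos hc hu' a3 hi)

lemma same_out' (l : LI f) (l' : LI f') {u z g : H} (hc : Commute u z)
    (hu : ∀ N : ℤ, f u < f (z ^ N)) (hu' : ∀ N : ℤ, f' u < f' (z ^ N))
    (hg : ∃ m m' : ℤ, f (z ^ m) ≤ f g ∧ f g ≤ f (z ^ m'))
    (hg' : ∃ m m' : ℤ, f' (z ^ m) ≤ f' g ∧ f' g ≤ f' (z ^ m'))
    (h0 : f 1 < f g ↔ f' 1 < f' g) (i : ℤ) : f 1 < f (u ^ i * g) ↔ f' 1 < f' (u ^ i * g) := by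
  have := same_out l l' hc.inv_left (l.out_inv hc hu) (l'.out_inv hc hu') hg hg' h0 (-i)
  simpa using this

lemma same_S (G : S.Good f) (G' : S.L.Good f) (K : S.Good f') (K' : S.L.Good f') {a c : H}
    (ha : a ∈ S.A) (hc : c ∈ S.L.A) : f 1 < f (a * c) ↔ f' 1 < f' (a * c) := by
  by_cases h : a ∈ Subgroup.zpowers S.e
  · obtain ⟨k, rfl⟩ := h
    exact Tri.same_pos G' K' (S.L.A.mul_mem (S.L.A.zpow_mem S.e_memL k) hc)
  · have j1 := J_uc G G' (Commute.one_left _) G.J_one hc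
    have j2 := J_uc K K' (Commute.one_left _) K.J_one hc
    rw [one_mul] at j1 j2
    rw [G.sep_iff ha h j1, K.sep_iff ha h j2]
    exact Tri.same_pos G K ha

lemma same_mid (G : S.Good f) (G' : S.L.Good f) (K : S.Good f') (K' : S.L.Good f') {j : ℤ}
    (h1 : S.J f (S.z ^ (-j) * S.t)) (h2 : S.J f' (S.z ^ (-j) * S.t))
    (h3 : ∀ (i : ℤ), ∀ c ∈ S.L.A, f 1 < f ((S.z ^ (-j) * S.t) ^ i * c) ↔
      f' 1 < f' ((S.z ^ (-j) * S.t) ^ i * c))
    {a c : H} (ha : a ∈ S.A) (i : ℤ) (hc : c ∈ S.L.A) :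
    f 1 < f (a * S.t ^ i * c) ↔ f' 1 < f' (a * S.t ^ i * c) := by
  have hzt : Commute (S.z ^ (-j)) S.t := ((S.tA S.z_mem).symm.zpow_left _)
  have e1 : a * S.t ^ i * c = (a * S.z ^ (j * i)) * ((S.z ^ (-j) * S.t) ^ i * c) := by
    rw [hzt.mul_zpow, ← zpow_mul]; group
  have ha' : a * S.z ^ (j * i) ∈ S.A := S.A.mul_mem ha (S.A.zpow_mem S.z_mem _)
  rw [e1]
  generalize a * S.z ^ (j * i) = a' at ha'
  by_cases h : a' ∈ Subgroup.zpowers S.e
  · obtain ⟨k, rfl⟩ := h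
    simp only
    rw [← mul_assoc, ← ((S.ue j).zpow_zpow i k).eq, mul_assoc]
    exact h3 i _ (S.L.A.mul_mem (S.L.A.zpow_mem S.e_memL k) hc)
  · have j1 := J_uc G G' ((S.ue j).zpow_left i) (G.J_zpow (S.ux j) (S.uy j) (S.uw j) h1 i) hc
    have j2 := J_uc K K' ((S.ue j).zpow_left i) (K.J_zpow (S.ux j) (S.uy j) (S.uw j) h2 i) hc
    rw [G.sep_iff ha' h j1, K.sep_iff ha' h j2]
    exact Tri.same_pos G K ha'

theorem same (G : S.Good f) (G' : S.L.Good f) (K : S.Good f') (K' : S.L.Good f')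
    {d : Option ℤ × Bool} (h1 : S.Ty f d) (h2 : S.Ty f' d) {g : H}
    (hg : g ∈ Subgroup.closure S.gens) : f 1 < f g ↔ f' 1 < f' g := by
  obtain ⟨a, ha, i, n, hn, rfl⟩ := S.normal_form hg
  have hc := S.N_le hn
  have e1 : a * S.t ^ i * n = S.t ^ i * (a * n) := by
    rw [← ((S.tA ha).zpow_left i).eq, mul_assoc]
  rcases d with ⟨_ | j, _ | _⟩
  · rw [e1]
    exact same_out' G.li K.li (S.tA S.z_mem) h1 h2 (hull_an G G' ha hc) (hull_an K K' ha hc)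
      (same_S G G' K K' ha hc) i
  · rw [e1]
    exact same_out G.li K.li (S.tA S.z_mem) h1 h2 (hull_an G G' ha hc) (hull_an K K' ha hc)
      (same_S G G' K K' ha hc) i
  · exact same_mid G G' K K' h1.1 h2.1 (fun i c hc => same_out' G.li K.li (S.uLz j) h1.2 h2.2
      (G'.hull hc) (K'.hull hc) (Tri.same_pos G' K' hc) i) ha i hc
  · exact same_mid G G' K K' h1.1 h2.1 (fun i c hc => same_out G.li K.li (S.uLz j) h1.2 h2.2
      (G'.hull hc) (K'.hull hc) (Tri.same_pos G' K' hc) i) ha i hc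

end Sys

end Pool.Agent.MP_cb5d7d_al
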